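import Pool.Agent.W242.PR.Exps

/-!
# Complex conjugation
-/

set_option autoImplicit false

namespace Pool.Agent.W242.PR

open Polynomial Module
open scoped ComplexConjugate
open Pool.Agent.H301R2.SSE
open Pool.Agent.W242.GG

theorem alg_conj {z : ℂ} (h : IsAlgebraic ℚ z) : IsAlgebraic ℚ (conj z) := by
  obtain ⟨p, hp, hz⟩ := h
  refine ⟨p, hp, ?_⟩
  have e : conj z = (Complex.conjAe.toAlgHom.restrictScalars ℚ) z := rfl
  rw [e, aeval_algHom_apply, hz, map_zero]

theorem Lt_conj {z : ℂ} (h : z ∈ Lt) : conj z ∈ Lt := by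
  unfold Lt at h
  induction h using Submodule.span_induction with
  | mem x hx =>
    rcases hx with hx | hx
    · rw [Set.mem_singleton_iff] at hx
      subst hx
      rw [map_one]
      exact Lt_one
    · apply Lt_log
      rw [Complex.exp_conj]
      exact alg_conj hx
  | zero => rw [map_zero]; exact Lt.zero_mem
  | add x y _ _ hx hy => rw [map_add]; exact Lt.add_mem hx hy
  | smul a x _ hx =>
    have e : conj (a • x) = conj (a : ℂ) * conj x := by
      rw [← map_mul]; rfl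
    rw [e]
    exact Lt_mul (alg_conj (QB_alg a)) hx

theorem inv_conj {x : ℝ} {s : ℂ} (h : 1 / ((x : ℂ) - s) ∈ Lt) : 1 / ((x : ℂ) - conj s) ∈ Lt := by
  have := Lt_conj h
  rwa [map_div₀, map_one, map_sub, Complex.conj_ofReal] at this

theorem conj_ne {s : ℂ} (hs : s.im ≠ 0) : s ≠ conj s := fun h =>
  hs (Complex.conj_eq_iff_im.1 h.symm)

/-- `t` and `1/(t - s)` for `s` not real -/
theorem real_two {x : ℝ} (ht : Transcendental ℚ (x : ℂ)) {s : ℂ} (hs : IsAlgebraic ℚ s)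
    (him : s.im ≠ 0) (m0 : (x : ℂ) ∈ Lt) (m1 : 1 / ((x : ℂ) - s) ∈ Lt) : False :=
  inv_two ht hs (alg_conj hs) (conj_ne him) m0 m1 (inv_conj m1)

/-- `1/(t - s)` and `1/(t - r)` for `s` not real and `r ≠ s, conj s` -/
theorem real_three {x : ℝ} (ht : Transcendental ℚ (x : ℂ)) {s r : ℂ} (hs : IsAlgebraic ℚ s)
    (hr : IsAlgebraic ℚ r) (him : s.im ≠ 0) (h1 : r ≠ s) (h2 : r ≠ conj s)
    (m1 : 1 / ((x : ℂ) - s) ∈ Lt) (m2 : 1 / ((x : ℂ) - r) ∈ Lt) : False :=
  inv_three ht hs (alg_conj hs) hr (conj_ne him) h1.symm h2.symm m1 (inv_conj m1) m2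

theorem false_of_encard {α : Type*} {S : Set α} (h : S.encard ≤ 2) {a b c : α} (hab : a ≠ b)
    (hac : a ≠ c) (hbc : b ≠ c) (ha : a ∈ S) (hb : b ∈ S) (hc : c ∈ S) : False := by
  have h3 : ({a, b, c} : Set α).encard = 3 := Set.encard_eq_three.2 ⟨a, b, c, hab, hac, hbc, rfl⟩
  have h4 : ({a, b, c} : Set α) ⊆ S := by
    rintro x (rfl | rfl | rfl) <;> assumption
  have h5 := (Set.encard_le_encard h4).trans h
  rw [h3] at h5
  exact absurd h5 (by norm_num)

/-- `e ^ d`, `e ^ z` and `e ^ (z + d)` for real `d` and `z` not real -/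
theorem exp_real {d z : ℂ} (hd : IsAlgebraic ℚ d) (hd0 : d ≠ 0) (hdim : d.im = 0)
    (hz : IsAlgebraic ℚ z) (him : z.im ≠ 0)
    (m0 : Complex.exp d ∈ Lt) (m1 : Complex.exp z ∈ Lt) (m2 : Complex.exp (z + d) ∈ Lt) :
    False := by
  have hdc : conj d = d := Complex.conj_eq_iff_im.2 hdim
  refine false_of_encard (exp_diff hd hd0) (a := 0) (b := z) (c := conj z) ?_ ?_ ?_ ?_ ?_ ?_
  · rintro rfl; simp at him
  · intro h
    apply him
    have := congrArg Complex.im h
    simpa using this.symm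
  · exact conj_ne him
  · refine ⟨⟨isAlgebraic_zero, ?_⟩, ?_, ?_⟩
    · rw [Complex.exp_zero]; exact Lt_one
    · rwa [zero_add]
    · rwa [zero_add]
  · exact ⟨⟨hz, m1⟩, hz.add hd, m2⟩
  · refine ⟨⟨alg_conj hz, ?_⟩, (alg_conj hz).add hd, ?_⟩
    · rw [Complex.exp_conj]; exact Lt_conj m1
    · have e : conj z + d = conj (z + d) := by rw [map_add, hdc]
      rw [e, Complex.exp_conj]; exact Lt_conj m2

/-- the purely imaginary exponents form a sum-free set -/
theorem exp_imag {x y : ℝ} (hx : IsAlgebraic ℚ (x : ℂ)) (hy : IsAlgebraic ℚ (y : ℂ))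
    (hx0 : x ≠ 0) (hy0 : y ≠ 0) (hxy : x + y ≠ 0)
    (m0 : Complex.exp (x * Complex.I) ∈ Lt) (m1 : Complex.exp (y * Complex.I) ∈ Lt)
    (m2 : Complex.exp ((x + y : ℝ) * Complex.I) ∈ Lt) : False := by
  have hI := Pool.Agent.H340R2.LW.isAlgebraic_I
  have hI0 := Complex.I_ne_zero
  have hxI : ((x : ℂ) * Complex.I) ≠ 0 := mul_ne_zero (by exact_mod_cast hx0) hI0
  refine false_of_encard (exp_diff (hx.mul hI) hxI) (a := 0) (b := -(x * Complex.I))
    (c := y * Complex.I) ?_ ?_ ?_ ?_ ?_ ?_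
  · intro h; exact hxI (by linear_combination h)
  · exact (mul_ne_zero (by exact_mod_cast hy0) hI0).symm
  · intro h
    have h2 : ((x : ℂ) + y) * Complex.I = 0 := by linear_combination -h
    rcases mul_eq_zero.1 h2 with h3 | h3
    · exact hxy (by exact_mod_cast h3)
    · exact hI0 h3
  · refine ⟨⟨isAlgebraic_zero, ?_⟩, ?_, ?_⟩
    · rw [Complex.exp_zero]; exact Lt_one
    · rw [zero_add]; exact hx.mul hI
    · rwa [zero_add]
  · refine ⟨⟨(hx.mul hI).neg, ?_⟩, ?_, ?_⟩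
    · have e : -((x : ℂ) * Complex.I) = conj ((x : ℂ) * Complex.I) := by
        rw [map_mul, Complex.conj_ofReal, Complex.conj_I]; ring
      rw [e, Complex.exp_conj]; exact Lt_conj m0
    · rw [neg_add_cancel]; exact isAlgebraic_zero
    · rw [neg_add_cancel, Complex.exp_zero]; exact Lt_one
  · refine ⟨⟨hy.mul hI, m1⟩, (hy.mul hI).add (hx.mul hI), ?_⟩
    have e : (y : ℂ) * Complex.I + x * Complex.I = ((x + y : ℝ) : ℂ) * Complex.I := by
      push_cast; ring
    rw [e]; exact m2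

end Pool.Agent.W242.PR
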