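import Pool.Agent.W242.PR.Real

/-!
# One-dimensional periods are linear forms in logarithms
-/

set_option autoImplicit false

namespace Pool.Agent.W242.PR

open Polynomial MeasureTheory Filter Topology
open Pool.Agent.H301R2.SSE

/-- `S` does not change on intervals without points of `Z` -/
def LC (Z : Finset ℝ) (S : Set ℝ) : Prop :=
  ∀ u v : ℝ, (∀ z ∈ Z, z ∉ Set.Ioo u v) → ∀ x ∈ Set.Ioo u v, ∀ y ∈ Set.Ioo u v, x ∈ S → y ∈ S

theorem LC_Ioo {Z : Finset ℝ} {S : Set ℝ} (h : LC Z S) {u v : ℝ} (hZ : ∀ z ∈ Z, z ∉ Set.Ioo u v) :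
    S ∩ Set.Ioo u v = ∅ ∨ S ∩ Set.Ioo u v = Set.Ioo u v := by
  by_cases hx : ∃ x ∈ Set.Ioo u v, x ∈ S
  · obtain ⟨x, hx, hxS⟩ := hx
    right
    apply Set.inter_eq_right.2
    intro y hy
    exact h u v hZ x hx y hy hxS
  · left
    push Not at hx
    ext y
    simp only [Set.mem_inter_iff, Set.mem_empty_iff_false, iff_false, not_and]
    intro hy hy2
    exact hx y hy2 hy

theorem LC_Iio {Z : Finset ℝ} {S : Set ℝ} (h : LC Z S) {v : ℝ} (hZ : ∀ z ∈ Z, z ∉ Set.Iio v) :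
    S ∩ Set.Iio v = ∅ ∨ S ∩ Set.Iio v = Set.Iio v := by
  by_cases hx : ∃ x ∈ Set.Iio v, x ∈ S
  · obtain ⟨x, hx, hxS⟩ := hx
    right
    apply Set.inter_eq_right.2
    intro y hy
    refine h (min x y - 1) v (fun z hz hzI => hZ z hz hzI.2) x ⟨?_, hx⟩ y ⟨?_, hy⟩ hxS
    · have := min_le_left x y; linarith
    · have := min_le_right x y; linarith
  · left
    push Not at hx
    ext y
    simp only [Set.mem_inter_iff, Set.mem_empty_iff_false, iff_false, not_and]
    intro hy hy2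
    exact hx y hy2 hy

theorem LC_Ioi {Z : Finset ℝ} {S : Set ℝ} (h : LC Z S) {v : ℝ} (hZ : ∀ z ∈ Z, z ∉ Set.Ioi v) :
    S ∩ Set.Ioi v = ∅ ∨ S ∩ Set.Ioi v = Set.Ioi v := by
  by_cases hx : ∃ x ∈ Set.Ioi v, x ∈ S
  · obtain ⟨x, hx, hxS⟩ := hx
    right
    apply Set.inter_eq_right.2
    intro y hy
    refine h v (max x y + 1) (fun z hz hzI => hZ z hz hzI.1) x ⟨hx, ?_⟩ y ⟨hy, ?_⟩ hxS
    · have := le_max_left x y; linarith
    · have := le_max_right x y; linarith
  · left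
    push Not at hx
    ext y
    simp only [Set.mem_inter_iff, Set.mem_empty_iff_false, iff_false, not_and]
    intro hy hy2
    exact hx y hy2 hy

theorem zero_Lt : ((0 : ℝ) : ℂ) ∈ Lt := by
  rw [Complex.ofReal_zero]; exact Lt.zero_mem

theorem below (Z : Finset ℝ) (hZ : ∀ z ∈ Z, IsAlgebraic ℚ z) (S : Set ℝ) (hSm : MeasurableSet S)
    (hS : LC Z S) (P Q : ℚ[X]) (hQ0 : Q ≠ 0) (hQ : ∀ x : ℝ, aeval x Q = 0 → x ∈ Z)
    (hint : IntegrableOn (rf P Q) S) (k : ℕ) : ∀ b : ℝ, IsAlgebraic ℚ b →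
      (Z.filter (· < b)).card = k → ((∫ x in S ∩ Set.Iio b, rf P Q x : ℝ) : ℂ) ∈ Lt := by
  induction k using Nat.strong_induction_on with
  | _ k ih =>
    intro b hb hk
    rcases (Z.filter (· < b)).eq_empty_or_nonempty with he | hne
    · have hno : ∀ z ∈ Z, z ∉ Set.Iio b := by
        intro z hz hzb
        have : z ∈ Z.filter (· < b) := Finset.mem_filter.2 ⟨hz, hzb⟩
        rw [he] at this
        exact absurd this (Finset.notMem_empty z)
      rcases LC_Iio hS hno with h | h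
      · rw [h, setIntegral_empty]; exact zero_Lt
      · rw [h]
        refine Iio_case hb P Q hQ0 (fun x hx h0 => hno x (hQ x h0) hx) (hint.mono_set ?_)
        rw [← h]; exact Set.inter_subset_left
    · set z := (Z.filter (· < b)).max' hne with hzdef
      have hzm : z ∈ Z.filter (· < b) := Finset.max'_mem _ hne
      obtain ⟨hzZ, hzb⟩ := Finset.mem_filter.1 hzm
      have hno : ∀ w ∈ Z, w ∉ Set.Ioo z b := by
        intro w hw hwI
        have h1 : w ∈ Z.filter (· < b) := Finset.mem_filter.2 ⟨hw, hwI.2⟩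
        have h2 := Finset.le_max' _ w h1
        exact absurd hwI.1 (not_lt.2 h2)
      have hcard : (Z.filter (· < z)).card < k := by
        rw [← hk]
        apply Finset.card_lt_card
        rw [Finset.ssubset_iff_of_subset]
        · exact ⟨z, hzm, by simp⟩
        · intro w hw
          rw [Finset.mem_filter] at hw ⊢
          exact ⟨hw.1, hw.2.trans hzb⟩
      have h1 := ih _ hcard z (hZ z hzZ) rfl
      have hsplit : (∫ x in S ∩ Set.Iio b, rf P Q x) = (∫ x in S ∩ Set.Iio z, rf P Q x) +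
          ∫ x in S ∩ Set.Ioo z b, rf P Q x := by
        have h2 : S ∩ Set.Iio b = (S ∩ Set.Iio z) ∪ (S ∩ Set.Ico z b) := by
          rw [← Set.inter_union_distrib_left, Set.Iio_union_Ico_eq_Iio hzb.le]
        have h3 : (∫ x in S ∩ Set.Ico z b, rf P Q x) = ∫ x in S ∩ Set.Ioo z b, rf P Q x := by
          apply setIntegral_congr_set
          exact (ae_eq_refl S).inter Ioo_ae_eq_Ico.symm
        rw [h2, setIntegral_union ?_ (hSm.inter measurableSet_Ico)
          (hint.mono_set Set.inter_subset_left) (hint.mono_set Set.inter_subset_left), h3]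
        rw [Set.disjoint_left]
        rintro x ⟨_, h4⟩ ⟨_, h5⟩
        exact absurd h4 (not_lt.2 h5.1)
      rw [hsplit]
      push_cast
      refine Lt.add_mem h1 ?_
      rcases LC_Ioo hS hno with h | h
      · rw [h, setIntegral_empty]; exact zero_Lt
      · rw [h]
        refine Ioo_case hzb (hZ z hzZ) hb P Q hQ0 (fun x hx h0 => hno x (hQ x h0) hx)
          (hint.mono_set ?_)
        rw [← h]; exact Set.inter_subset_left

theorem total (Z : Finset ℝ) (hZ : ∀ z ∈ Z, IsAlgebraic ℚ z) (S : Set ℝ) (hSm : MeasurableSet S)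
    (hS : LC Z S) (P Q : ℚ[X]) (hQ0 : Q ≠ 0) (hQ : ∀ x : ℝ, aeval x Q = 0 → x ∈ Z)
    (hint : IntegrableOn (rf P Q) S) : ((∫ x in S, rf P Q x : ℝ) : ℂ) ∈ Lt := by
  obtain ⟨b, hb⟩ : ∃ b : ℕ, ∀ z ∈ Z, z ≤ (b : ℝ) := by
    rcases Z.eq_empty_or_nonempty with he | hne
    · exact ⟨0, by simp [he]⟩
    · obtain ⟨b, hb⟩ := exists_nat_gt (Z.max' hne)
      exact ⟨b, fun z hz => (Finset.le_max' _ z hz).trans hb.le⟩
  have hno : ∀ z ∈ Z, z ∉ Set.Ioi (b : ℝ) := fun z hz hzI => absurd hzI (not_lt.2 (hb z hz))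
  have h1 := below Z hZ S hSm hS P Q hQ0 hQ hint _ (b : ℝ) (natCast_alg b) rfl
  have hsplit : (∫ x in S, rf P Q x) = (∫ x in S ∩ Set.Iio (b : ℝ), rf P Q x) +
      ∫ x in S ∩ Set.Ioi (b : ℝ), rf P Q x := by
    have h2 : S = (S ∩ Set.Iio (b : ℝ)) ∪ (S ∩ Set.Ici (b : ℝ)) := by
      rw [← Set.inter_union_distrib_left, Set.Iio_union_Ici, Set.inter_univ]
    have h3 : (∫ x in S ∩ Set.Ici (b : ℝ), rf P Q x) = ∫ x in S ∩ Set.Ioi (b : ℝ), rf P Q x := by
      apply setIntegral_congr_set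
      exact (ae_eq_refl S).inter Ioi_ae_eq_Ici.symm
    conv_lhs => rw [h2]
    rw [setIntegral_union ?_ (hSm.inter measurableSet_Ici)
      (hint.mono_set Set.inter_subset_left) (hint.mono_set Set.inter_subset_left), h3]
    rw [Set.disjoint_left]
    rintro x ⟨_, h4⟩ ⟨_, h5⟩
    exact (not_lt.2 (Set.mem_Ici.1 h5)) (Set.mem_Iio.1 h4)
  rw [hsplit]
  push_cast
  refine Lt.add_mem h1 ?_
  rcases LC_Ioi hS hno with h | h
  · rw [h, setIntegral_empty]; exact zero_Lt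
  · rw [h]
    refine Ioi_case (natCast_alg b) P Q hQ0 (fun x hx h0 => hno x (hQ x h0) hx)
      (hint.mono_set ?_)
    rw [← h]; exact Set.inter_subset_left

/-- the real roots of a polynomial with rational coefficients -/
noncomputable def rts (p : ℚ[X]) : Finset ℝ := (p.map (algebraMap ℚ ℝ)).roots.toFinset

theorem mem_rts {p : ℚ[X]} (hp : p ≠ 0) {x : ℝ} : x ∈ rts p ↔ aeval x p = 0 := by
  unfold rts
  rw [Multiset.mem_toFinset, mem_roots ((Polynomial.map_ne_zero_iff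
    (algebraMap ℚ ℝ).injective).2 hp), IsRoot, eval_map_algebraMap]

theorem rts_alg {p : ℚ[X]} {x : ℝ} (hx : x ∈ rts p) : IsAlgebraic ℚ x := by
  rcases eq_or_ne p 0 with h0 | h0
  · subst h0; simp [rts] at hx
  · exact ⟨p, h0, (mem_rts h0).1 hx⟩

theorem sign_const {p : ℚ[X]} {u v : ℝ} (h : ∀ z ∈ rts p, z ∉ Set.Ioo u v) {x y : ℝ}
    (hx : x ∈ Set.Ioo u v) (hy : y ∈ Set.Ioo u v) (hpos : 0 < aeval x p) : 0 < aeval y p := by
  by_contra hcon
  push Not at hcon
  have hp : p ≠ 0 := by rintro rfl; simp at hpos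
  have hc : Continuous (fun x : ℝ => aeval x p) := p.continuous_aeval
  have h1 : (0 : ℝ) ∈ Set.uIcc (aeval y p) (aeval x p) := by
    rw [Set.uIcc_of_le (hcon.trans hpos.le)]
    exact ⟨hcon, hpos.le⟩
  obtain ⟨w, hw, hw0⟩ := intermediate_value_uIcc (a := y) (b := x) hc.continuousOn h1
  refine h w ((mem_rts hp).2 hw0) ?_
  exact Set.OrdConnected.uIcc_subset Set.ordConnected_Ioo hy hx hw

theorem sign_const' {p : ℚ[X]} {u v : ℝ} (h : ∀ z ∈ rts p, z ∉ Set.Ioo u v) {x y : ℝ}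
    (hx : x ∈ Set.Ioo u v) (hy : y ∈ Set.Ioo u v) (hpos : 0 ≤ aeval x p) : 0 ≤ aeval y p := by
  rcases eq_or_ne p 0 with h0 | h0
  · subst h0; simp
  · rcases hpos.eq_or_lt with h1 | h1
    · exact absurd hx (h x ((mem_rts h0).2 h1.symm))
    · exact (sign_const h hx hy h1).le

theorem meas_pos (p : ℚ[X]) : MeasurableSet {x : ℝ | 0 < aeval x p} :=
  (isOpen_lt continuous_const p.continuous_aeval).measurableSet

theorem meas_nonneg (p : ℚ[X]) : MeasurableSet {x : ℝ | 0 ≤ aeval x p} :=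
  (isClosed_le continuous_const p.continuous_aeval).measurableSet

/-- the union of the roots of finitely many polynomials -/
noncomputable def allRts {ι : Type*} [Fintype ι] (p : ι → ℚ[X]) : Finset ℝ := by
  classical exact Finset.univ.biUnion (fun i => rts (p i))

theorem mem_allRts {ι : Type*} [Fintype ι] {p : ι → ℚ[X]} {x : ℝ} :
    x ∈ allRts p ↔ ∃ i, x ∈ rts (p i) := by
  classical
  unfold allRts
  simp

/-- integrals over open sets `∃ j, ∀ i, 0 < p j i` -/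
theorem real_open (P Q : ℚ[X]) (k m : ℕ) (p : Fin k → Fin m → ℚ[X])
    (hint : IntegrableOn (rf P Q) {x : ℝ | ∃ j, ∀ i, 0 < aeval x (p j i)}) :
    ((∫ x in {x : ℝ | ∃ j, ∀ i, 0 < aeval x (p j i)}, rf P Q x : ℝ) : ℂ) ∈ Lt := by
  classical
  rcases eq_or_ne Q 0 with h0 | h0
  · subst h0
    have : ∀ x, rf P 0 x = 0 := by intro x; simp [rf]
    simp only [this, integral_zero]
    exact zero_Lt
  set Z : Finset ℝ := rts Q ∪ allRts (fun q : Fin k × Fin m => p q.1 q.2) with hZ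
  refine total Z ?_ _ ?_ ?_ P Q h0 ?_ hint
  · intro z hz
    rw [hZ, Finset.mem_union, mem_allRts] at hz
    rcases hz with hz | ⟨i, hz⟩
    · exact rts_alg hz
    · exact rts_alg hz
  · have : {x : ℝ | ∃ j, ∀ i, 0 < aeval x (p j i)} = ⋃ j, ⋂ i, {x : ℝ | 0 < aeval x (p j i)} := by
      ext x; simp
    rw [this]
    exact MeasurableSet.iUnion (fun j => MeasurableSet.iInter (fun i => meas_pos _))
  · rintro u v huv x hx y hy ⟨j, hj⟩
    refine ⟨j, fun i => sign_const (fun z hz => huv z ?_) hx hy (hj i)⟩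
    rw [hZ, Finset.mem_union, mem_allRts]
    exact Or.inr ⟨(j, i), hz⟩
  · intro x hx
    rw [hZ, Finset.mem_union]
    exact Or.inl ((mem_rts h0).2 hx)

/-- integrals over closed sets `∀ i, 0 ≤ p i` -/
theorem real_closed (P Q : ℚ[X]) (m : ℕ) (p : Fin m → ℚ[X])
    (hint : IntegrableOn (rf P Q) {x : ℝ | ∀ i, 0 ≤ aeval x (p i)}) :
    ((∫ x in {x : ℝ | ∀ i, 0 ≤ aeval x (p i)}, rf P Q x : ℝ) : ℂ) ∈ Lt := by
  classical
  rcases eq_or_ne Q 0 with h0 | h0
  · subst h0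
    have : ∀ x, rf P 0 x = 0 := by intro x; simp [rf]
    simp only [this, integral_zero]
    exact zero_Lt
  set Z : Finset ℝ := rts Q ∪ allRts p with hZ
  refine total Z ?_ _ ?_ ?_ P Q h0 ?_ hint
  · intro z hz
    rw [hZ, Finset.mem_union, mem_allRts] at hz
    rcases hz with hz | ⟨i, hz⟩
    · exact rts_alg hz
    · exact rts_alg hz
  · have : {x : ℝ | ∀ i, 0 ≤ aeval x (p i)} = ⋂ i, {x : ℝ | 0 ≤ aeval x (p i)} := by
      ext x; simp
    rw [this]
    exact MeasurableSet.iInter (fun i => meas_nonneg _)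
  · rintro u v huv x hx y hy hj i
    refine sign_const' (fun z hz => huv z ?_) hx hy (hj i)
    rw [hZ, Finset.mem_union, mem_allRts]
    exact Or.inr ⟨i, hz⟩
  · intro x hx
    rw [hZ, Finset.mem_union]
    exact Or.inl ((mem_rts h0).2 hx)

/-- the polynomial in one variable -/
noncomputable def toP (P : MvPolynomial (Fin 1) ℚ) : ℚ[X] := MvPolynomial.aeval (fun _ => X) P

theorem aeval_toP (P : MvPolynomial (Fin 1) ℚ) (x : Fin 1 → ℝ) :
    MvPolynomial.aeval x P = aeval (x 0) (toP P) := by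
  unfold toP
  have h1 : (aeval (x 0) : ℚ[X] →ₐ[ℚ] ℝ) (MvPolynomial.aeval (fun _ : Fin 1 => (X : ℚ[X])) P) =
      ((aeval (x 0) : ℚ[X] →ₐ[ℚ] ℝ).comp (MvPolynomial.aeval (fun _ : Fin 1 => (X : ℚ[X])))) P := rfl
  rw [h1, MvPolynomial.comp_aeval]
  congr 2
  funext i
  rw [aeval_X]
  congr 1
  exact Subsingleton.elim _ _

theorem transfer (S : Set ℝ) (P Q : ℚ[X]) (f : (Fin 1 → ℝ) → ℝ) (hf : ∀ x, f x = rf P Q (x 0))
    (T : Set (Fin 1 → ℝ)) (hT : ∀ x, x ∈ T ↔ x 0 ∈ S) :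
    (IntegrableOn f T ↔ IntegrableOn (rf P Q) S) ∧ ∫ x in T, f x = ∫ x in S, rf P Q x := by
  have hmp := volume_preserving_funUnique (Fin 1) ℝ
  have hemb := (MeasurableEquiv.funUnique (Fin 1) ℝ).measurableEmbedding
  have hTS : T = (MeasurableEquiv.funUnique (Fin 1) ℝ) ⁻¹' S := by
    ext x
    rw [hT]
    rfl
  have hfe : f = rf P Q ∘ (MeasurableEquiv.funUnique (Fin 1) ℝ) := by
    funext x
    rw [hf]
    rfl
  constructor
  · rw [hTS, hfe]
    exact hmp.integrableOn_comp_preimage hemb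
  · rw [hTS, hfe]
    exact hmp.setIntegral_preimage_emb hemb (rf P Q) S

/-- the definition of the problem with `n = 1` (open sets) -/
theorem period_open (P Q : MvPolynomial (Fin 1) ℚ) (k m : ℕ)
    (p : Fin k → Fin m → MvPolynomial (Fin 1) ℚ)
    (hint : IntegrableOn (fun x : Fin 1 → ℝ => MvPolynomial.aeval x P / MvPolynomial.aeval x Q)
        {x : Fin 1 → ℝ | ∃ j, ∀ i, 0 < MvPolynomial.aeval x (p j i)} volume) :
    ((∫ x in {x : Fin 1 → ℝ | ∃ j, ∀ i, 0 < MvPolynomial.aeval x (p j i)},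
          MvPolynomial.aeval x P / MvPolynomial.aeval x Q : ℝ) : ℂ) ∈ Lt := by
  obtain ⟨h1, h2⟩ := transfer {x : ℝ | ∃ j, ∀ i, 0 < aeval x (toP (p j i))} (toP P) (toP Q)
    (fun x : Fin 1 → ℝ => MvPolynomial.aeval x P / MvPolynomial.aeval x Q)
    (fun x => by simp only [aeval_toP]; rfl)
    {x : Fin 1 → ℝ | ∃ j, ∀ i, 0 < MvPolynomial.aeval x (p j i)} (fun x => by
      simp only [Set.mem_ofPred_eq, aeval_toP])
  rw [h2]
  exact real_open _ _ k m (fun j i => toP (p j i)) (h1.1 hint)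

/-- closed sets -/
theorem period_closed (P Q : MvPolynomial (Fin 1) ℚ) (m : ℕ)
    (p : Fin m → MvPolynomial (Fin 1) ℚ)
    (hint : IntegrableOn (fun x : Fin 1 → ℝ => MvPolynomial.aeval x P / MvPolynomial.aeval x Q)
        {x : Fin 1 → ℝ | ∀ i, 0 ≤ MvPolynomial.aeval x (p i)} volume) :
    ((∫ x in {x : Fin 1 → ℝ | ∀ i, 0 ≤ MvPolynomial.aeval x (p i)},
          MvPolynomial.aeval x P / MvPolynomial.aeval x Q : ℝ) : ℂ) ∈ Lt := by
  obtain ⟨h1, h2⟩ := transfer {x : ℝ | ∀ i, 0 ≤ aeval x (toP (p i))} (toP P) (toP Q)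
    (fun x : Fin 1 → ℝ => MvPolynomial.aeval x P / MvPolynomial.aeval x Q)
    (fun x => by simp only [aeval_toP]; rfl)
    {x : Fin 1 → ℝ | ∀ i, 0 ≤ MvPolynomial.aeval x (p i)} (fun x => by
      simp only [Set.mem_ofPred_eq, aeval_toP])
  rw [h2]
  exact real_closed _ _ m (fun i => toP (p i)) (h1.1 hint)

end Pool.Agent.W242.PR
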