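import Pool.Agent.W242.PR.Mob

/-!
# One-dimensional periods
-/

set_option autoImplicit false

namespace Pool.Agent.W242.PR

open Polynomial MeasureTheory Module
open Pool.Agent.H301R2.SSE
open Pool.Agent.W242.GG

/-- A set of real numbers described by finitely many polynomial equalities and inequalities with
rational coefficients, combined in any way: whether `x` is in the set depends only on the signs
at `x` of finitely many polynomials with rational coefficients. -/
def Described (S : Set ℝ) : Prop :=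
  ∃ F : Finset ℚ[X], ∀ x y : ℝ,
    (∀ p ∈ F, SignType.sign (aeval x p) = SignType.sign (aeval y p)) → x ∈ S → y ∈ S

/-- A real one-dimensional period: an absolutely convergent integral of a rational function of one
variable over such a set. -/
def RealPeriodOne (y : ℝ) : Prop :=
  ∃ (P Q : ℚ[X]) (S : Set ℝ), Q ≠ 0 ∧ Described S ∧
    IntegrableOn (fun x : ℝ => aeval x P / aeval x Q) S ∧
    (∫ x in S, aeval x P / aeval x Q) = y

/-- a one-dimensional period -/
def PeriodOne (z : ℂ) : Prop := RealPeriodOne z.re ∧ RealPeriodOne z.im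

/-- linear combinations, with algebraic coefficients, of one-dimensional periods -/
noncomputable def PeriodsOne : Submodule (algebraicClosure ℚ ℂ) ℂ :=
  Submodule.span (algebraicClosure ℚ ℂ) {z : ℂ | PeriodOne z}

theorem meas_sign (p : ℚ[X]) (s : SignType) :
    MeasurableSet {x : ℝ | SignType.sign (aeval x p) = s} := by
  have hc : Continuous (fun x : ℝ => aeval x p) := p.continuous_aeval
  rcases s with _ | _ | _
  · have : {x : ℝ | SignType.sign (aeval x p) = SignType.zero} = {x : ℝ | aeval x p = 0} := by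
      ext x
      exact sign_eq_zero_iff
    rw [this]
    exact (isClosed_eq hc continuous_const).measurableSet
  · have : {x : ℝ | SignType.sign (aeval x p) = SignType.neg} = {x : ℝ | aeval x p < 0} := by
      ext x
      exact sign_eq_neg_one_iff
    rw [this]
    exact (isOpen_lt hc continuous_const).measurableSet
  · have : {x : ℝ | SignType.sign (aeval x p) = SignType.pos} = {x : ℝ | 0 < aeval x p} := by
      ext x
      exact sign_eq_one_iff
    rw [this]
    exact (isOpen_lt continuous_const hc).measurableSet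

theorem Described.measurable {S : Set ℝ} (h : Described S) : MeasurableSet S := by
  classical
  obtain ⟨F, hF⟩ := h
  set pat : ℝ → (F → SignType) := fun x p => SignType.sign (aeval x (p : ℚ[X])) with hpat
  have hS : S = ⋃ σ ∈ (pat '' S), ⋂ p : F, {x : ℝ | SignType.sign (aeval x (p : ℚ[X])) = σ p} := by
    ext y
    simp only [Set.mem_iUnion, Set.mem_iInter, Set.mem_image, exists_prop]
    constructor
    · intro hy
      exact ⟨pat y, ⟨y, hy, rfl⟩, fun p => rfl⟩
    · rintro ⟨σ, ⟨x, hx, rfl⟩, h⟩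
      exact hF x y (fun p hp => (h ⟨p, hp⟩).symm) hx
  rw [hS]
  refine (Set.toFinite _).measurableSet_biUnion (fun σ _ => ?_)
  exact MeasurableSet.iInter (fun p => meas_sign _ _)

theorem sign_eq {p : ℚ[X]} {u v : ℝ} (h : ∀ z ∈ rts p, z ∉ Set.Ioo u v) {x y : ℝ}
    (hx : x ∈ Set.Ioo u v) (hy : y ∈ Set.Ioo u v) :
    SignType.sign (aeval x p) = SignType.sign (aeval y p) := by
  rcases lt_trichotomy (aeval x p) 0 with h1 | h1 | h1
  · rw [sign_neg h1, sign_neg]
    by_contra h2
    push Not at h2
    exact absurd (sign_const' h hy hx h2) (not_le.2 h1)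
  · have h2 : aeval y p = 0 := by
      rcases eq_or_ne p 0 with h0 | h0
      · subst h0; simp
      · exact absurd hx (h x ((mem_rts h0).2 h1))
    rw [h1, h2]
  · rw [sign_pos h1, sign_pos (sign_const h hx hy h1)]

theorem described_Lt {S : Set ℝ} (hS : Described S) (P Q : ℚ[X])
    (hint : IntegrableOn (rf P Q) S) : ((∫ x in S, rf P Q x : ℝ) : ℂ) ∈ Lt := by
  classical
  rcases eq_or_ne Q 0 with h0 | h0
  · subst h0
    have : ∀ x, rf P 0 x = 0 := by intro x; simp [rf]
    simp only [this, integral_zero]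
    exact zero_Lt
  have hm := hS.measurable
  obtain ⟨F, hF⟩ := hS
  set Z : Finset ℝ := rts Q ∪ F.biUnion rts with hZ
  refine total Z ?_ _ hm ?_ P Q h0 ?_ hint
  · intro z hz
    rw [hZ, Finset.mem_union, Finset.mem_biUnion] at hz
    rcases hz with hz | ⟨i, _, hz⟩
    · exact rts_alg hz
    · exact rts_alg hz
  · rintro u v huv x hx y hy hxS
    refine hF x y (fun p hp => sign_eq (fun z hz => huv z ?_) hx hy) hxS
    rw [hZ, Finset.mem_union, Finset.mem_biUnion]
    exact Or.inr ⟨p, hp, hz⟩
  · intro x hx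
    rw [hZ, Finset.mem_union]
    exact Or.inl ((mem_rts h0).2 hx)

theorem real_Lt {y : ℝ} (h : RealPeriodOne y) : (y : ℂ) ∈ Lt := by
  obtain ⟨P, Q, S, _, hS, hint, rfl⟩ := h
  exact described_Lt hS P Q hint

theorem period_Lt {z : ℂ} (h : PeriodOne z) : z ∈ Lt := by
  have e : z = (z.re : ℂ) + Complex.I * (z.im : ℂ) := by
    rw [mul_comm]; exact (Complex.re_add_im z).symm
  rw [e]
  exact Lt.add_mem (real_Lt h.1) (Lt_mul Pool.Agent.H340R2.LW.isAlgebraic_I (real_Lt h.2))

theorem PeriodsOne_le : PeriodsOne ≤ Lt := by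
  unfold PeriodsOne
  rw [Submodule.span_le]
  intro z hz
  exact period_Lt hz

theorem real_zero : RealPeriodOne 0 :=
  ⟨0, 1, Set.univ, one_ne_zero, ⟨∅, fun _ _ _ _ => Set.mem_univ _⟩, by simp, by simp⟩

theorem real_mem {y : ℝ} (h : RealPeriodOne y) : (y : ℂ) ∈ PeriodsOne := by
  apply Submodule.subset_span
  exact ⟨by simpa using h, by simpa using real_zero⟩

/-- the integrals of the problem with one variable, open conditions -/
theorem open_mem (P Q : MvPolynomial (Fin 1) ℚ) (k m : ℕ)
    (p : Fin k → Fin m → MvPolynomial (Fin 1) ℚ)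
    (hint : IntegrableOn (fun x : Fin 1 → ℝ => MvPolynomial.aeval x P / MvPolynomial.aeval x Q)
        {x : Fin 1 → ℝ | ∃ j, ∀ i, 0 < MvPolynomial.aeval x (p j i)} volume) :
    RealPeriodOne (∫ x in {x : Fin 1 → ℝ | ∃ j, ∀ i, 0 < MvPolynomial.aeval x (p j i)},
          MvPolynomial.aeval x P / MvPolynomial.aeval x Q : ℝ) := by
  classical
  obtain ⟨h1, h2⟩ := transfer {x : ℝ | ∃ j, ∀ i, 0 < aeval x (toP (p j i))} (toP P) (toP Q)
    (fun x : Fin 1 → ℝ => MvPolynomial.aeval x P / MvPolynomial.aeval x Q)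
    (fun x => by simp only [aeval_toP]; rfl)
    {x : Fin 1 → ℝ | ∃ j, ∀ i, 0 < MvPolynomial.aeval x (p j i)} (fun x => by
      simp only [Set.mem_ofPred_eq, aeval_toP])
  rw [h2]
  rcases eq_or_ne (toP Q) 0 with h0 | h0
  · have : ∀ x, rf (toP P) (toP Q) x = 0 := by intro x; simp [rf, h0]
    simp only [this, integral_zero]
    exact real_zero
  refine ⟨toP P, toP Q, _, h0, ?_, h1.1 hint, rfl⟩
  refine ⟨Finset.univ.image (fun q : Fin k × Fin m => toP (p q.1 q.2)), ?_⟩
  rintro x y hxy ⟨j, hj⟩
  refine ⟨j, fun i => ?_⟩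
  have := hxy (toP (p j i)) (Finset.mem_image.2 ⟨(j, i), Finset.mem_univ _, rfl⟩)
  rw [sign_pos (hj i)] at this
  exact sign_eq_one_iff.1 this.symm

/-- the integrals of the problem with one variable, closed conditions -/
theorem closed_mem (P Q : MvPolynomial (Fin 1) ℚ) (m : ℕ)
    (p : Fin m → MvPolynomial (Fin 1) ℚ)
    (hint : IntegrableOn (fun x : Fin 1 → ℝ => MvPolynomial.aeval x P / MvPolynomial.aeval x Q)
        {x : Fin 1 → ℝ | ∀ i, 0 ≤ MvPolynomial.aeval x (p i)} volume) :
    RealPeriodOne (∫ x in {x : Fin 1 → ℝ | ∀ i, 0 ≤ MvPolynomial.aeval x (p i)},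
          MvPolynomial.aeval x P / MvPolynomial.aeval x Q : ℝ) := by
  classical
  obtain ⟨h1, h2⟩ := transfer {x : ℝ | ∀ i, 0 ≤ aeval x (toP (p i))} (toP P) (toP Q)
    (fun x : Fin 1 → ℝ => MvPolynomial.aeval x P / MvPolynomial.aeval x Q)
    (fun x => by simp only [aeval_toP]; rfl)
    {x : Fin 1 → ℝ | ∀ i, 0 ≤ MvPolynomial.aeval x (p i)} (fun x => by
      simp only [Set.mem_ofPred_eq, aeval_toP])
  rw [h2]
  rcases eq_or_ne (toP Q) 0 with h0 | h0
  · have : ∀ x, rf (toP P) (toP Q) x = 0 := by intro x; simp [rf, h0]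
    simp only [this, integral_zero]
    exact real_zero
  refine ⟨toP P, toP Q, _, h0, ?_, h1.1 hint, rfl⟩
  refine ⟨Finset.univ.image (fun i : Fin m => toP (p i)), ?_⟩
  intro x y hxy hj i
  have := hxy (toP (p i)) (Finset.mem_image.2 ⟨i, Finset.mem_univ _, rfl⟩)
  by_contra hcon
  push Not at hcon
  rw [sign_neg hcon] at this
  exact absurd (hj i) (not_le.2 (sign_eq_neg_one_iff.1 this))

end Pool.Agent.W242.PR
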