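import Pool.Agent.W242.PR.Desc

/-!
# Exponentials of algebraic numbers and powers of a transcendental number
-/

set_option autoImplicit false

namespace Pool.Agent.W242.PR

open Polynomial Module
open scoped Pointwise
open Pool.Agent.H301R2.SSE
open Pool.Agent.H137R5.Tow (Ind3)
open Pool.Agent.W242.GG

theorem encard_two {α : Type*} (S : Set α)
    (h : ∀ a b c : α, a ≠ b → a ≠ c → b ≠ c → a ∈ S → b ∈ S → c ∈ S → False) :
    S.encard ≤ 2 := by
  by_contra hcon
  push Not at hcon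
  have h3 : 3 ≤ S.encard := by
    have := Order.add_one_le_of_lt hcon
    exact this
  obtain ⟨T, hT, hT3⟩ := Set.exists_subset_encard_eq h3
  obtain ⟨a, b, c, hab, hac, hbc, rfl⟩ := Set.encard_eq_three.1 hT3
  exact h a b c hab hac hbc (hT (by simp)) (hT (by simp)) (hT (by simp))

theorem exp_ind3 {a b c : ℂ} (ha : IsAlgebraic ℚ a) (hb : IsAlgebraic ℚ b) (hc : IsAlgebraic ℚ c)
    (hab : a ≠ b) (hac : a ≠ c) (hbc : b ≠ c) :
    Ind3 (Complex.exp a) (Complex.exp b) (Complex.exp c) := by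
  intro x y z hx hy hz h
  have := Pool.Agent.H340R2.LW.lindemann_weierstrass (Finset.univ : Finset (Fin 3)) ![a, b, c]
    ![x, y, z] (by intro i _; fin_cases i <;> simpa) (by intro i _; fin_cases i <;> simpa)
    (by
      intro i _ j _ hij
      fin_cases i <;> fin_cases j <;> simp_all)
    (by simpa [Fin.sum_univ_three] using h)
  exact ⟨this 0 (Finset.mem_univ _), this 1 (Finset.mem_univ _), this 2 (Finset.mem_univ _)⟩

/-- each difference of exponents occurs at most twice -/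
theorem exp_diff {d : ℂ} (hd : IsAlgebraic ℚ d) (hd0 : d ≠ 0) :
    {b : ℂ | (IsAlgebraic ℚ b ∧ Complex.exp b ∈ Lt) ∧
      (IsAlgebraic ℚ (b + d) ∧ Complex.exp (b + d) ∈ Lt)}.encard ≤ 2 := by
  apply encard_two
  rintro a b c hab hac hbc ⟨⟨ha, ha1⟩, _, ha2⟩ ⟨⟨hb, hb1⟩, _, hb2⟩ ⟨⟨hc, hc1⟩, _, hc2⟩
  refine core' (Complex.exp d) (Pool.Agent.H340R2.LW.transcendental_cexp d hd hd0) _ _ _
    (exp_ind3 ha hb hc hab hac hbc) ha1 hb1 hc1 ?_ ?_ ?_
  · rw [← Complex.exp_add, add_comm]; exact ha2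
  · rw [← Complex.exp_add, add_comm]; exact hb2
  · rw [← Complex.exp_add, add_comm]; exact hc2

theorem zpow_ind3 {t : ℂ} (ht : Transcendental ℚ t) {a b c : ℤ}
    (hab : a ≠ b) (hac : a ≠ c) (hbc : b ≠ c) : Ind3 (t ^ a) (t ^ b) (t ^ c) := by
  intro x y z hx hy hz h
  have ht0 : t ≠ 0 := tr_ne0 ht
  obtain ⟨m, hm⟩ : ∃ m : ℤ, m ≤ a ∧ m ≤ b ∧ m ≤ c :=
    ⟨min a (min b c), min_le_left _ _, (min_le_right _ _).trans (min_le_left _ _),
      (min_le_right _ _).trans (min_le_right _ _)⟩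
  obtain ⟨i, hi⟩ := Int.eq_ofNat_of_zero_le (sub_nonneg.2 hm.1)
  obtain ⟨j, hj⟩ := Int.eq_ofNat_of_zero_le (sub_nonneg.2 hm.2.1)
  obtain ⟨k, hk⟩ := Int.eq_ofNat_of_zero_le (sub_nonneg.2 hm.2.2)
  have hij : i ≠ j := by rintro rfl; exact hab (by omega)
  have hik : i ≠ k := by rintro rfl; exact hac (by omega)
  have hjk : j ≠ k := by rintro rfl; exact hbc (by omega)
  have h2 : x * t ^ i + y * t ^ j + z * t ^ k = 0 := by
    have e1 : t ^ a = t ^ m * t ^ i := by
      rw [← zpow_natCast t i, ← zpow_add₀ ht0, ← hi]; congr 1; ring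
    have e2 : t ^ b = t ^ m * t ^ j := by
      rw [← zpow_natCast t j, ← zpow_add₀ ht0, ← hj]; congr 1; ring
    have e3 : t ^ c = t ^ m * t ^ k := by
      rw [← zpow_natCast t k, ← zpow_add₀ ht0, ← hk]; congr 1; ring
    rw [e1, e2, e3] at h
    apply mul_left_cancel₀ (zpow_ne_zero m ht0)
    rw [mul_zero, ← h]; ring
  exact Pool.Agent.H137R5.Tow.powers t ht i j k hij hik hjk x y z hx hy hz h2

theorem zpow_tr {t : ℂ} (ht : Transcendental ℚ t) {d : ℤ} (hd : d ≠ 0) :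
    Transcendental ℚ (t ^ d) := by
  intro h
  have h1 := h.mul h
  have h2 : Ind3 (t ^ (0 : ℤ)) (t ^ d) (t ^ (2 * d)) := zpow_ind3 ht (by omega) (by omega) (by omega)
  have h3 := h2 (t ^ d) (-1) 0 h isAlgebraic_one.neg isAlgebraic_zero (by simp)
  have := h3.2.1
  norm_num at this

theorem zpow_diff {t : ℂ} (ht : Transcendental ℚ t) {d : ℤ} (hd0 : d ≠ 0) :
    {k : ℤ | t ^ k ∈ Lt ∧ t ^ (k + d) ∈ Lt}.encard ≤ 2 := by
  have ht0 : t ≠ 0 := tr_ne0 ht
  apply encard_two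
  rintro a b c hab hac hbc ⟨ha1, ha2⟩ ⟨hb1, hb2⟩ ⟨hc1, hc2⟩
  refine core' (t ^ d) (zpow_tr ht hd0) _ _ _ (zpow_ind3 ht hab hac hbc) ha1 hb1 hc1 ?_ ?_ ?_
  · rw [← zpow_add₀ ht0, add_comm]; exact ha2
  · rw [← zpow_add₀ ht0, add_comm]; exact hb2
  · rw [← zpow_add₀ ht0, add_comm]; exact hc2

/-- counting -/
theorem count_diff {G : Type*} [AddCommGroup G] [DecidableEq G] (E : G → Prop) [DecidablePred E]
    (A : Finset G) (h : ∀ d : G, d ≠ 0 → d ∈ A - A → {x | E x ∧ E (x + d)}.encard ≤ 2) :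
    (A.filter E).card * ((A.filter E).card - 1) ≤ 2 * ((A - A).card - 1) := by
  set B := A.filter E with hB
  rcases B.eq_empty_or_nonempty with h0 | ⟨b0, hb0⟩
  · rw [h0]; simp
  have h1 : B.offDiag.card = B.card * (B.card - 1) := by
    rw [Finset.offDiag_card, Nat.mul_sub_one]
  have h0A : (0 : G) ∈ A - A := by
    have hbA : b0 ∈ A := (Finset.mem_filter.1 hb0).1
    exact Finset.mem_sub.2 ⟨b0, hbA, b0, hbA, sub_self _⟩
  rw [← h1, ← Finset.card_erase_of_mem h0A]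
  refine Finset.card_le_mul_card_image_of_maps_to (f := fun p : G × G => p.2 - p.1) ?_ 2 ?_
  · rintro ⟨x, y⟩ hp
    rw [Finset.mem_offDiag] at hp
    obtain ⟨hx, hy, hxy⟩ := hp
    rw [Finset.mem_erase]
    refine ⟨sub_ne_zero.2 (Ne.symm hxy), Finset.mem_sub.2 ⟨y, (Finset.mem_filter.1 hy).1, x,
      (Finset.mem_filter.1 hx).1, rfl⟩⟩
  · intro d hd
    rw [Finset.mem_erase] at hd
    have h2 := h d hd.1 hd.2
    have h3 : ((B.offDiag.filter (fun p : G × G => p.2 - p.1 = d)).card : ℕ∞) ≤ 2 := by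
      refine le_trans ?_ h2
      rw [← Set.encard_coe_eq_coe_finsetCard]
      refine Set.encard_le_encard_of_injOn (f := Prod.fst) ?_ ?_
      · rintro ⟨x, y⟩ hp
        rw [Finset.mem_coe, Finset.mem_filter, Finset.mem_offDiag] at hp
        obtain ⟨⟨hx, hy, _⟩, hd⟩ := hp
        have e : x + d = y := by rw [← hd]; simp
        exact ⟨(Finset.mem_filter.1 hx).2, by change E (x + d); rw [e]; exact (Finset.mem_filter.1 hy).2⟩
      · rintro ⟨x, y⟩ hp ⟨x', y'⟩ hp' hxx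
        rw [Finset.mem_coe, Finset.mem_filter] at hp hp'
        have e1 : y = d + x := by rw [← hp.2]; simp
        have e2 : y' = d + x' := by rw [← hp'.2]; simp
        simp only at hxx
        rw [e1, e2, hxx]
    exact_mod_cast h3

theorem exp_count (A : Finset ℂ) (hA : ∀ a ∈ A, IsAlgebraic ℚ a) (E : ℂ → Prop) [DecidablePred E]
    (hE : ∀ z, E z → Complex.exp z ∈ Lt) :
    (A.filter E).card * ((A.filter E).card - 1) ≤ 2 * ((A - A).card - 1) := by
  classical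
  have hd : ∀ d ∈ A - A, IsAlgebraic ℚ d := by
    intro d hd
    obtain ⟨x, hx, y, hy, rfl⟩ := Finset.mem_sub.1 hd
    exact (hA x hx).sub (hA y hy)
  have h := count_diff (fun z => IsAlgebraic ℚ z ∧ Complex.exp z ∈ Lt) A (by
    intro d hd0 hdA
    exact exp_diff (hd d hdA) hd0)
  have hle : (A.filter E).card ≤
      (A.filter (fun z => IsAlgebraic ℚ z ∧ Complex.exp z ∈ Lt)).card := by
    apply Finset.card_le_card
    intro z hz
    rw [Finset.mem_filter] at hz ⊢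
    exact ⟨hz.1, hA z hz.1, hE z hz.2⟩
  refine le_trans (Nat.mul_le_mul hle (Nat.sub_le_sub_right hle 1)) ?_
  convert h

theorem zpow_count {t : ℂ} (ht : Transcendental ℚ t) (A : Finset ℤ) (E : ℤ → Prop)
    [DecidablePred E] (hE : ∀ k, E k → t ^ k ∈ Lt) :
    (A.filter E).card * ((A.filter E).card - 1) ≤ 2 * ((A - A).card - 1) := by
  classical
  have h := count_diff (fun k : ℤ => t ^ k ∈ Lt) A (by
    intro d hd0 _
    exact zpow_diff ht hd0)
  have hle : (A.filter E).card ≤ (A.filter (fun k : ℤ => t ^ k ∈ Lt)).card := by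
    apply Finset.card_le_card
    intro z hz
    rw [Finset.mem_filter] at hz ⊢
    exact ⟨hz.1, hE z hz.2⟩
  refine le_trans (Nat.mul_le_mul hle (Nat.sub_le_sub_right hle 1)) ?_
  convert h

theorem zpow_Icc {t : ℂ} (ht : Transcendental ℚ t) (N : ℕ) (E : ℤ → Prop)
    [DecidablePred E] (hE : ∀ k, E k → t ^ k ∈ Lt) :
    ((Finset.Icc (-(N : ℤ)) N).filter E).card * (((Finset.Icc (-(N : ℤ)) N).filter E).card - 1) ≤
      8 * N := by
  refine (zpow_count ht (Finset.Icc (-(N : ℤ)) N) E hE).trans ?_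
  have h1 : (Finset.Icc (-(N : ℤ)) N - Finset.Icc (-(N : ℤ)) N) ⊆
      Finset.Icc (-(2 * N : ℤ)) (2 * N) := by
    intro d hd
    obtain ⟨x, hx, y, hy, rfl⟩ := Finset.mem_sub.1 hd
    rw [Finset.mem_Icc] at *
    constructor <;> omega
  have h2 := Finset.card_le_card h1
  rw [Int.card_Icc] at h2
  omega

end Pool.Agent.W242.PR
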