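import Pool.Agent.H301R2.SSE.Forms

/-!
# Integrals of rational functions without poles on a compact interval
-/

set_option autoImplicit false

namespace Pool.Agent.W242.PR

open Polynomial MeasureTheory intervalIntegral
open Pool.Agent.H301R2.SSE

/-- the product over the poles -/
noncomputable def den (s : Multiset QB) (x : ℂ) : ℂ := (s.map (fun α : QB => x - (α : ℂ))).prod

theorem den_zero (x : ℂ) : den 0 x = 1 := by simp [den]

theorem den_cons (α : QB) (s : Multiset QB) (x : ℂ) : den (α ::ₘ s) x = (x - α) * den s x := by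
  simp [den]

theorem den_ne {s : Multiset QB} {x : ℂ} (h : ∀ α ∈ s, x ≠ (α : ℂ)) : den s x ≠ 0 := by
  unfold den
  apply Multiset.prod_ne_zero
  intro h0
  rw [Multiset.mem_map] at h0
  obtain ⟨α, hα, h1⟩ := h0
  exact h α hα (sub_eq_zero.1 h1)

theorem den_cont (s : Multiset QB) : Continuous (fun x : ℝ => den s (x : ℂ)) := by
  induction s using Multiset.induction with
  | empty => simp only [den_zero]; exact continuous_const
  | cons α s ih =>
    simp only [den_cons]
    exact (Complex.continuous_ofReal.sub continuous_const).mul ih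

/-- the integrand -/
noncomputable def fr (P : QB[X]) (s : Multiset QB) (x : ℝ) : ℂ := aeval (x : ℂ) P / den s (x : ℂ)

theorem aeval_cont (P : QB[X]) : Continuous (fun x : ℝ => aeval (x : ℂ) P) := by
  have h1 : Continuous (fun z : ℂ => aeval z P) := P.continuous_aeval
  exact h1.comp Complex.continuous_ofReal

theorem fr_cont {a b : ℝ} (P : QB[X]) {s : Multiset QB}
    (hs : ∀ α ∈ s, ∀ x ∈ Set.uIcc a b, (x : ℂ) ≠ (α : ℂ)) :
    ContinuousOn (fr P s) (Set.uIcc a b) := by
  apply ContinuousOn.div (aeval_cont P).continuousOn (den_cont s).continuousOn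
  intro x hx
  exact den_ne (fun α hα => hs α hα x hx)

theorem fr_int {a b : ℝ} (P : QB[X]) {s : Multiset QB}
    (hs : ∀ α ∈ s, ∀ x ∈ Set.uIcc a b, (x : ℂ) ≠ (α : ℂ)) :
    IntervalIntegrable (fr P s) volume a b := (fr_cont P hs).intervalIntegrable

theorem ofReal_alg {a : ℝ} (ha : IsAlgebraic ℚ a) : IsAlgebraic ℚ (a : ℂ) :=
  ha.algebraMap (A := ℂ)

/-- polynomials -/
theorem int_poly {a b : ℝ} (ha : IsAlgebraic ℚ a) (hb : IsAlgebraic ℚ b) (P : QB[X]) :
    (∫ x in a..b, aeval (x : ℂ) P) ∈ Lt := by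
  induction P using Polynomial.induction_on' with
  | add P Q hP hQ =>
    simp only [map_add]
    rw [intervalIntegral.integral_add ((aeval_cont P).intervalIntegrable _ _)
      ((aeval_cont Q).intervalIntegrable _ _)]
    exact Lt.add_mem hP hQ
  | monomial n c =>
    have h1 : (∫ x in a..b, aeval (x : ℂ) (monomial n c)) =
        (c : ℂ) * (((b : ℂ) ^ (n + 1) - (a : ℂ) ^ (n + 1)) / (n + 1)) := by
      have h2 : ∀ x : ℝ, aeval (x : ℂ) (monomial n c) = (c : ℂ) * ((x ^ n : ℝ) : ℂ) := by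
        intro x
        rw [aeval_monomial]
        push_cast
        rfl
      simp only [h2]
      rw [intervalIntegral.integral_const_mul, intervalIntegral.integral_ofReal, integral_pow]
      push_cast
      ring
    rw [h1]
    refine Lt_alg ((mem_QB.1 c.2).mul (((ofReal_alg hb).pow _ |>.sub ((ofReal_alg ha).pow _)).mul
      ?_))
    have : IsAlgebraic ℚ ((n : ℂ) + 1) := by
      have := isAlgebraic_algebraMap (R := ℚ) (A := ℂ) ((n : ℚ) + 1)
      simpa using this
    exact this.inv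

theorem hasDeriv_sub (α : ℂ) (x : ℝ) : HasDerivAt (fun x : ℝ => (x : ℂ) - α) 1 x := by
  have h1 : HasDerivAt (fun x : ℝ => (x : ℂ)) 1 x := by
    simpa using (hasDerivAt_id x).ofReal_comp
  exact h1.sub_const α

/-- the logarithm -/
theorem int_log {a b : ℝ} (hab : a ≤ b) (ha : IsAlgebraic ℚ a) (hb : IsAlgebraic ℚ b) (α : QB)
    (hα : ∀ x ∈ Set.uIcc a b, (x : ℂ) ≠ (α : ℂ)) :
    IsAlgebraic ℚ (Complex.exp (∫ x in a..b, ((x : ℂ) - α)⁻¹)) := by
  have hna : (a : ℂ) - α ≠ 0 := sub_ne_zero.2 (hα a Set.left_mem_uIcc)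
  have hnb : (b : ℂ) - α ≠ 0 := sub_ne_zero.2 (hα b Set.right_mem_uIcc)
  have hslit : ∀ x ∈ Set.uIcc a b, ((x : ℂ) - α) / ((a : ℂ) - α) ∈ Complex.slitPlane := by
    intro x hx
    by_contra hcon
    rw [Complex.mem_slitPlane_iff] at hcon
    push Not at hcon
    obtain ⟨h1, h2⟩ := hcon
    set w := ((x : ℂ) - α) / ((a : ℂ) - α) with hw
    have h3 : w = ((w.re : ℝ) : ℂ) := by
      apply Complex.ext
      · simp
      · simp [h2]
    have h4 : (x : ℂ) - α = w * ((a : ℂ) - α) := by rw [hw]; field_simp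
    rw [h3] at h4
    set r := w.re with hr
    have hr1 : (1 : ℝ) - r ≠ 0 := by linarith
    have hr1' : (1 : ℂ) - (r : ℂ) ≠ 0 := by exact_mod_cast hr1
    have h5 : (α : ℂ) = (((x - r * a) / (1 - r) : ℝ) : ℂ) := by
      push_cast
      rw [eq_div_iff hr1']
      linear_combination (-1 : ℂ) * h4
    rw [Set.uIcc_of_le hab] at hx hα
    have hpos : 0 < 1 - r := by linarith
    refine hα ((x - r * a) / (1 - r)) ⟨?_, ?_⟩ h5.symm
    · rw [le_div_iff₀ hpos]
      nlinarith [hx.1]
    · rw [div_le_iff₀ hpos]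
      nlinarith [hx.1, hx.2]
  have h1 : (∫ x in a..b, ((x : ℂ) - α)⁻¹) =
      Complex.log (((b : ℂ) - α) / ((a : ℂ) - α)) - Complex.log (((a : ℂ) - α) / ((a : ℂ) - α)) := by
    have := intervalIntegral.integral_eq_sub_of_hasDerivAt
      (f := fun x : ℝ => Complex.log (((x : ℂ) - α) / ((a : ℂ) - α)))
      (f' := fun x : ℝ => ((x : ℂ) - α)⁻¹) (a := a) (b := b) ?_ ?_
    · exact this
    · intro x hx
      have h2 := ((hasDeriv_sub (α : ℂ) x).div_const ((a : ℂ) - α)).clog_real (hslit x hx)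
      have hnx : (x : ℂ) - α ≠ 0 := sub_ne_zero.2 (hα x hx)
      refine h2.congr_deriv ?_
      rw [div_div_div_cancel_right₀ hna, one_div]
    · apply ContinuousOn.intervalIntegrable
      apply ContinuousOn.inv₀
      · exact (Complex.continuous_ofReal.sub continuous_const).continuousOn
      · intro x hx
        exact sub_ne_zero.2 (hα x hx)
  rw [h1, div_self hna, Complex.log_one, sub_zero, Complex.exp_log (div_ne_zero hnb hna)]
  exact ((ofReal_alg hb).sub (mem_QB.1 α.2)).mul ((ofReal_alg ha).sub (mem_QB.1 α.2)).inv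

/-- higher powers -/
theorem int_pow_inv {a b : ℝ} (hab : a ≤ b) (ha : IsAlgebraic ℚ a) (hb : IsAlgebraic ℚ b) (α : QB)
    (m : ℕ) (hα : ∀ x ∈ Set.uIcc a b, (x : ℂ) ≠ (α : ℂ)) :
    (∫ x in a..b, (((x : ℂ) - α) ^ (m + 1))⁻¹) ∈ Lt := by
  rcases Nat.eq_zero_or_pos m with h0 | hm
  · subst h0
    simp only [zero_add, pow_one]
    exact Lt_log (int_log hab ha hb α hα)
  · have hm0 : (m : ℂ) ≠ 0 := by exact_mod_cast hm.ne'
    have h1 := intervalIntegral.integral_eq_sub_of_hasDerivAt
      (f := fun x : ℝ => (-(m : ℂ))⁻¹ * (((x : ℂ) - α) ^ m)⁻¹)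
      (f' := fun x : ℝ => (((x : ℂ) - α) ^ (m + 1))⁻¹) (a := a) (b := b) (by
        intro x hx
        have hnx : (x : ℂ) - α ≠ 0 := sub_ne_zero.2 (hα x hx)
        have h2 := (((hasDeriv_sub (α : ℂ) x).pow m).inv (pow_ne_zero m hnx)).const_mul
          (-(m : ℂ))⁻¹
        refine h2.congr_deriv ?_
        obtain ⟨k, rfl⟩ : ∃ k, m = k + 1 := ⟨m - 1, by omega⟩
        simp only [Nat.add_sub_cancel, Pi.pow_apply]
        field_simp
        ring) (by
        apply ContinuousOn.intervalIntegrable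
        apply ContinuousOn.inv₀
        · exact ((Complex.continuous_ofReal.sub continuous_const).pow _).continuousOn
        · intro x hx
          exact pow_ne_zero _ (sub_ne_zero.2 (hα x hx)))
    rw [h1]
    apply Lt_alg
    have hmA : IsAlgebraic ℚ (-(m : ℂ))⁻¹ := by
      have := isAlgebraic_algebraMap (R := ℚ) (A := ℂ) ((m : ℚ))
      have h3 : IsAlgebraic ℚ (m : ℂ) := by simpa using this
      exact h3.neg.inv
    have hA : IsAlgebraic ℚ (α : ℂ) := mem_QB.1 α.2
    exact (hmA.mul (((ofReal_alg hb).sub hA).pow m).inv).sub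
      (hmA.mul (((ofReal_alg ha).sub hA).pow m).inv)

theorem fr_zero (P : QB[X]) (x : ℝ) : fr P 0 x = aeval (x : ℂ) P := by
  simp [fr, den_zero]

/-- rational functions without poles on the interval -/
theorem int_fr {a b : ℝ} (hab : a ≤ b) (ha : IsAlgebraic ℚ a) (hb : IsAlgebraic ℚ b) (k : ℕ) :
    ∀ (s : Multiset QB) (P : QB[X]), Multiset.card s = k →
      (∀ α ∈ s, ∀ x ∈ Set.uIcc a b, (x : ℂ) ≠ (α : ℂ)) → (∫ x in a..b, fr P s x) ∈ Lt := by
  induction k with
  | zero =>
    intro s P hs _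
    rw [Multiset.card_eq_zero] at hs
    subst hs
    simp only [fr_zero]
    exact int_poly ha hb P
  | succ k ih =>
    intro s P hs hα
    obtain ⟨α, s1, rfl⟩ : ∃ α s1, s = α ::ₘ s1 := by
      have : s ≠ 0 := by rintro rfl; simp at hs
      obtain ⟨α, hα⟩ := Multiset.exists_mem_of_ne_zero this
      obtain ⟨s1, h1⟩ := Multiset.exists_cons_of_mem hα
      exact ⟨α, s1, h1⟩
    have hc1 : Multiset.card s1 = k := by simpa using hs
    by_cases hex : ∃ β ∈ s1, β ≠ α
    · obtain ⟨β, hβ, hne⟩ := hex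
      obtain ⟨s2, rfl⟩ := Multiset.exists_cons_of_mem hβ
      have hαβ : (α : ℂ) - (β : ℂ) ≠ 0 := by
        rw [sub_ne_zero]
        intro h
        exact hne (Subtype.ext h).symm
      have hA : ∀ γ ∈ α ::ₘ s2, ∀ x ∈ Set.uIcc a b, (x : ℂ) ≠ (γ : ℂ) := by
        intro γ hγ
        apply hα
        rw [Multiset.mem_cons] at hγ ⊢
        rcases hγ with h | h
        · exact Or.inl h
        · exact Or.inr (Multiset.mem_cons_of_mem h)
      have hB : ∀ γ ∈ β ::ₘ s2, ∀ x ∈ Set.uIcc a b, (x : ℂ) ≠ (γ : ℂ) := by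
        intro γ hγ
        exact hα γ (Multiset.mem_cons_of_mem hγ)
      have h1 : ∀ x ∈ Set.uIcc a b, fr P (α ::ₘ β ::ₘ s2) x =
          ((α : ℂ) - β)⁻¹ * (fr P (α ::ₘ s2) x - fr P (β ::ₘ s2) x) := by
        intro x hx
        have n1 : (x : ℂ) - α ≠ 0 := sub_ne_zero.2 (hA α (Multiset.mem_cons_self _ _) x hx)
        have n2 : (x : ℂ) - β ≠ 0 := sub_ne_zero.2 (hB β (Multiset.mem_cons_self _ _) x hx)
        have n3 : den s2 (x : ℂ) ≠ 0 := den_ne (fun γ hγ =>
          hA γ (Multiset.mem_cons_of_mem hγ) x hx)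
        unfold fr
        rw [den_cons, den_cons, den_cons]
        field_simp
        ring
      rw [intervalIntegral.integral_congr h1, intervalIntegral.integral_const_mul,
        intervalIntegral.integral_sub (fr_int P hA) (fr_int P hB)]
      refine Lt_mul (((mem_QB.1 α.2).sub (mem_QB.1 β.2)).inv) (Lt.sub_mem ?_ ?_)
      · exact ih _ P (by simpa using hc1) hA
      · exact ih _ P (by simpa using hc1) hB
    · push Not at hex
      have hs1 : s1 = Multiset.replicate k α := Multiset.eq_replicate.2 ⟨hc1, hex⟩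
      have hden : ∀ (j : ℕ) (x : ℂ), den (Multiset.replicate j α) x = (x - α) ^ j := by
        intro j x
        unfold den
        rw [Multiset.map_replicate, Multiset.prod_replicate]
      have hα0 : ∀ x ∈ Set.uIcc a b, (x : ℂ) ≠ (α : ℂ) :=
        hα α (Multiset.mem_cons_self _ _)
      have hA : ∀ γ ∈ s1, ∀ x ∈ Set.uIcc a b, (x : ℂ) ≠ (γ : ℂ) := by
        intro γ hγ
        exact hα γ (Multiset.mem_cons_of_mem hγ)
      have hP : P = (X - C α) * (P /ₘ (X - C α)) + C (P.eval α) := by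
        have h2 := modByMonic_add_div P (X - C α)
        rw [modByMonic_X_sub_C_eq_C_eval] at h2
        rw [add_comm]
        exact h2.symm
      have h1 : ∀ x ∈ Set.uIcc a b, fr P (α ::ₘ s1) x =
          fr (P /ₘ (X - C α)) s1 x + ((P.eval α : QB) : ℂ) * (((x : ℂ) - α) ^ (k + 1))⁻¹ := by
        intro x hx
        have n1 : (x : ℂ) - α ≠ 0 := sub_ne_zero.2 (hα0 x hx)
        unfold fr
        rw [den_cons, hs1, hden]
        have h3 : aeval (x : ℂ) P = ((x : ℂ) - α) * aeval (x : ℂ) (P /ₘ (X - C α)) +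
            ((P.eval α : QB) : ℂ) := by
          conv_lhs => rw [hP]
          rw [map_add, map_mul, map_sub, aeval_X, aeval_C, aeval_C]
          rfl
        rw [h3]
        have n2 : ((x : ℂ) - α) ^ k ≠ 0 := pow_ne_zero _ n1
        field_simp
        ring
      have hi2 : IntervalIntegrable (fun x : ℝ => (((x : ℂ) - α) ^ (k + 1))⁻¹) volume a b := by
        apply ContinuousOn.intervalIntegrable
        apply ContinuousOn.inv₀
        · exact ((Complex.continuous_ofReal.sub continuous_const).pow _).continuousOn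
        · intro x hx
          exact pow_ne_zero _ (sub_ne_zero.2 (hα0 x hx))
      rw [intervalIntegral.integral_congr h1, intervalIntegral.integral_add (fr_int _ hA)
        (hi2.const_mul _), intervalIntegral.integral_const_mul]
      refine Lt.add_mem (ih _ _ hc1 hA) (Lt_mul (mem_QB.1 (P.eval α).2) ?_)
      exact int_pow_inv hab ha hb α k hα0

end Pool.Agent.W242.PR
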