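import Pool.Agent.W242.GG.LogSqrt
import Pool.Agent.W242.GG.Fam
import Pool.Agent.W242.PR.Decomp

/-!
# Linear forms in logarithms in the projective family of a transcendental number
-/

set_option autoImplicit false

namespace Pool.Agent.W242.PR

open Polynomial MeasureTheory
open Pool.Agent.H301R2.SSE
open Pool.Agent.H137R5.Tow (Ind3)
open Pool.Agent.W242.GG

theorem tsub_ne {t : ℂ} (ht : Transcendental ℚ t) {s : ℂ} (hs : IsAlgebraic ℚ s) : t - s ≠ 0 := by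
  intro h
  apply ht
  have : t = s := by linear_combination h
  rw [this]; exact hs

theorem ind_inv3 {t : ℂ} (ht : Transcendental ℚ t) {s1 s2 s3 : ℂ} (h1 : IsAlgebraic ℚ s1)
    (h2 : IsAlgebraic ℚ s2) (h3 : IsAlgebraic ℚ s3) (h12 : s1 ≠ s2) (h13 : s1 ≠ s3)
    (h23 : s2 ≠ s3) : Ind3 (1 / (t - s1)) (1 / (t - s2)) (1 / (t - s3)) := by
  intro a b c ha hb hc h
  have n1 := tsub_ne ht h1
  have n2 := tsub_ne ht h2
  have n3 := tsub_ne ht h3
  have e0 : a * ((t - s2) * (t - s3)) + b * ((t - s1) * (t - s3)) + c * ((t - s1) * (t - s2)) =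
      0 := by
    have e1 : (a * (1 / (t - s1)) + b * (1 / (t - s2)) + c * (1 / (t - s3))) *
        ((t - s1) * (t - s2) * (t - s3)) = 0 := by rw [h, zero_mul]
    have e2 : (a * (1 / (t - s1)) + b * (1 / (t - s2)) + c * (1 / (t - s3))) *
        ((t - s1) * (t - s2) * (t - s3)) = a * ((t - s2) * (t - s3)) + b * ((t - s1) * (t - s3)) +
        c * ((t - s1) * (t - s2)) := by
      field_simp
    rw [← e2, e1]
  obtain ⟨hA, hB, hC⟩ := quad_zero ht (A := a * (s2 * s3) + b * (s1 * s3) + c * (s1 * s2))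
    (B := -(a * (s2 + s3) + b * (s1 + s3) + c * (s1 + s2))) (C := a + b + c)
    (((ha.mul (h2.mul h3)).add (hb.mul (h1.mul h3))).add (hc.mul (h1.mul h2)))
    ((((ha.mul (h2.add h3)).add (hb.mul (h1.add h3))).add (hc.mul (h1.add h2))).neg)
    ((ha.add hb).add hc) (by linear_combination e0)
  have k1 : a * ((s1 - s2) * (s1 - s3)) = 0 := by linear_combination hA + s1 * hB + s1 ^ 2 * hC
  have k2 : b * ((s2 - s1) * (s2 - s3)) = 0 := by linear_combination hA + s2 * hB + s2 ^ 2 * hC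
  have k3 : c * ((s3 - s1) * (s3 - s2)) = 0 := by linear_combination hA + s3 * hB + s3 ^ 2 * hC
  have d12 : s1 - s2 ≠ 0 := sub_ne_zero.2 h12
  have d13 : s1 - s3 ≠ 0 := sub_ne_zero.2 h13
  have d23 : s2 - s3 ≠ 0 := sub_ne_zero.2 h23
  have d21 : s2 - s1 ≠ 0 := sub_ne_zero.2 h12.symm
  have d31 : s3 - s1 ≠ 0 := sub_ne_zero.2 h13.symm
  have d32 : s3 - s2 ≠ 0 := sub_ne_zero.2 h23.symm
  exact ⟨(mul_eq_zero.1 k1).resolve_right (mul_ne_zero d12 d13),
    (mul_eq_zero.1 k2).resolve_right (mul_ne_zero d21 d23),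
    (mul_eq_zero.1 k3).resolve_right (mul_ne_zero d31 d32)⟩

theorem ind_inv2 {t : ℂ} (ht : Transcendental ℚ t) {s1 s2 : ℂ} (h1 : IsAlgebraic ℚ s1)
    (h2 : IsAlgebraic ℚ s2) (h12 : s1 ≠ s2) : Ind3 1 (1 / (t - s1)) (1 / (t - s2)) := by
  intro a b c ha hb hc h
  have n1 := tsub_ne ht h1
  have n2 := tsub_ne ht h2
  have e0 : a * ((t - s1) * (t - s2)) + b * (t - s2) + c * (t - s1) = 0 := by
    have e1 : (a * 1 + b * (1 / (t - s1)) + c * (1 / (t - s2))) *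
        ((t - s1) * (t - s2)) = 0 := by rw [h, zero_mul]
    have e2 : (a * 1 + b * (1 / (t - s1)) + c * (1 / (t - s2))) *
        ((t - s1) * (t - s2)) = a * ((t - s1) * (t - s2)) + b * (t - s2) + c * (t - s1) := by
      field_simp
    rw [← e2, e1]
  obtain ⟨hA, hB, hC⟩ := quad_zero ht (A := a * (s1 * s2) - b * s2 - c * s1)
    (B := -(a * (s1 + s2)) + b + c) (C := a)
    (((ha.mul (h1.mul h2)).sub (hb.mul h2)).sub (hc.mul h1))
    ((((ha.mul (h1.add h2)).neg).add hb).add hc) ha (by linear_combination e0)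
  subst hC
  have k1 : b * (s1 - s2) = 0 := by linear_combination hA + s1 * hB
  have k2 : c * (s2 - s1) = 0 := by linear_combination hA + s2 * hB
  exact ⟨rfl, (mul_eq_zero.1 k1).resolve_right (sub_ne_zero.2 h12),
    (mul_eq_zero.1 k2).resolve_right (sub_ne_zero.2 h12.symm)⟩

theorem mul_inv_Lt {t : ℂ} (ht : Transcendental ℚ t) {s : ℂ} (hs : IsAlgebraic ℚ s)
    (h : 1 / (t - s) ∈ Lt) : t * (1 / (t - s)) ∈ Lt := by
  have n := tsub_ne ht hs
  have e : t * (1 / (t - s)) = 1 + s * (1 / (t - s)) := by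
    field_simp
    ring
  rw [e]
  exact Lt.add_mem (Lt_alg isAlgebraic_one) (Lt_mul hs h)

/-- three members `1/(t - s)` -/
theorem inv_three {t : ℂ} (ht : Transcendental ℚ t) {s1 s2 s3 : ℂ} (h1 : IsAlgebraic ℚ s1)
    (h2 : IsAlgebraic ℚ s2) (h3 : IsAlgebraic ℚ s3) (h12 : s1 ≠ s2) (h13 : s1 ≠ s3)
    (h23 : s2 ≠ s3) (m1 : 1 / (t - s1) ∈ Lt) (m2 : 1 / (t - s2) ∈ Lt) (m3 : 1 / (t - s3) ∈ Lt) :
    False :=
  core' t ht _ _ _ (ind_inv3 ht h1 h2 h3 h12 h13 h23) m1 m2 m3 (mul_inv_Lt ht h1 m1)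
    (mul_inv_Lt ht h2 m2) (mul_inv_Lt ht h3 m3)

/-- `t` and two members `1/(t - s)` -/
theorem inv_two {t : ℂ} (ht : Transcendental ℚ t) {s1 s2 : ℂ} (h1 : IsAlgebraic ℚ s1)
    (h2 : IsAlgebraic ℚ s2) (h12 : s1 ≠ s2) (m0 : t ∈ Lt)
    (m1 : 1 / (t - s1) ∈ Lt) (m2 : 1 / (t - s2) ∈ Lt) : False :=
  core' t ht _ _ _ (ind_inv2 ht h1 h2 h12) (Lt_alg isAlgebraic_one) m1 m2 (by rwa [mul_one])
    (mul_inv_Lt ht h1 m1) (mul_inv_Lt ht h2 m2)

/-- the projective family of `t`: the members `t` and `1/(t - s)`, `s` algebraic -/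
noncomputable def mob (t : ℂ) : Option QB → ℂ
  | none => t
  | some s => 1 / (t - (s : ℂ))

theorem QB_alg (s : QB) : IsAlgebraic ℚ (s : ℂ) := mem_QB.1 s.2

theorem mob_two {t : ℂ} (ht : Transcendental ℚ t) :
    {o : Option QB | mob t o ∈ Lt}.encard ≤ 2 := by
  by_contra hcon
  push Not at hcon
  have h3 : 3 ≤ {o : Option QB | mob t o ∈ Lt}.encard := by
    have := Order.add_one_le_of_lt hcon
    exact this
  obtain ⟨T, hT, hT3⟩ := Set.exists_subset_encard_eq h3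
  obtain ⟨a, b, c, hab, hac, hbc, rfl⟩ := Set.encard_eq_three.1 hT3
  have ha : mob t a ∈ Lt := hT (by simp)
  have hb : mob t b ∈ Lt := hT (by simp)
  have hc : mob t c ∈ Lt := hT (by simp)
  clear hT hT3
  have key : ∀ a b : QB, (a : Option QB) ≠ b → (a : ℂ) ≠ b := by
    intro a b h h2
    exact h (by rw [Subtype.ext h2])
  rcases a with _ | a <;> rcases b with _ | b <;> rcases c with _ | c
  · exact hab rfl
  · exact hab rfl
  · exact hac rfl
  · exact inv_two ht (QB_alg b) (QB_alg c) (key _ _ hbc) ha hb hc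
  · exact hbc rfl
  · exact inv_two ht (QB_alg a) (QB_alg c) (key _ _ hac) hb ha hc
  · exact inv_two ht (QB_alg a) (QB_alg b) (key _ _ hab) hc ha hb
  · exact inv_three ht (QB_alg a) (QB_alg b) (QB_alg c) (key _ _ hab) (key _ _ hac) (key _ _ hbc)
      ha hb hc

theorem mob_one {t : ℂ} (ht : Transcendental ℚ t) (h : t ∈ Lt) {s1 s2 : ℂ}
    (h1 : IsAlgebraic ℚ s1) (h2 : IsAlgebraic ℚ s2) (m1 : 1 / (t - s1) ∈ Lt)
    (m2 : 1 / (t - s2) ∈ Lt) : s1 = s2 := by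
  by_contra h12
  exact inv_two ht h1 h2 h12 h m1 m2

end Pool.Agent.W242.PR
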