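import Pool.Agent.W242.PR.Frac

/-!
# Integrals of rational functions with rational coefficients over intervals
-/

set_option autoImplicit false

namespace Pool.Agent.W242.PR

open Polynomial MeasureTheory intervalIntegral Filter Topology
open Pool.Agent.H301R2.SSE

/-- a rational function -/
noncomputable def rf (P Q : ℚ[X]) (x : ℝ) : ℝ := aeval x P / aeval x Q

theorem aeval_ofReal (P : ℚ[X]) (x : ℝ) : ((aeval x P : ℝ) : ℂ) = aeval (x : ℂ) P := by
  have := aeval_algebraMap_apply ℂ x P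
  simpa using this.symm

theorem aeval_map_QB (P : ℚ[X]) (z : ℂ) : aeval z (P.map (algebraMap ℚ QB)) = aeval z P := by
  rw [aeval_map_algebraMap]

theorem compact_case {a b : ℝ} (hab : a ≤ b) (ha : IsAlgebraic ℚ a) (hb : IsAlgebraic ℚ b)
    (P Q : ℚ[X]) (hQ0 : Q ≠ 0) (hQ : ∀ x ∈ Set.uIcc a b, aeval x Q ≠ 0) :
    ((∫ x in a..b, rf P Q x : ℝ) : ℂ) ∈ Lt := by
  have : IsAlgClosed QB := (algebraicClosure.isAlgClosure ℚ ℂ).isAlgClosed
  set Q' : QB[X] := Q.map (algebraMap ℚ QB) with hQ'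
  have hsp : Q'.Splits := IsAlgClosed.splits Q'
  have hfac : Q' = C Q'.leadingCoeff * (Q'.roots.map (fun α => X - C α)).prod :=
    hsp.eq_prod_roots
  have hQ'0 : Q' ≠ 0 := (Polynomial.map_ne_zero_iff (algebraMap ℚ QB).injective).2 hQ0
  have hlead : Q'.leadingCoeff ≠ 0 := leadingCoeff_ne_zero.2 hQ'0
  have hev : ∀ z : ℂ, aeval z Q' = ((Q'.leadingCoeff : QB) : ℂ) * den Q'.roots z := by
    intro z
    conv_lhs => rw [hfac]
    rw [map_mul, aeval_C, map_multiset_prod, Multiset.map_map]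
    unfold den
    congr 2
    apply Multiset.map_congr rfl
    intro α _
    simp only [Function.comp, map_sub, aeval_X, aeval_C]
    rfl
  have hα : ∀ α ∈ Q'.roots, ∀ x ∈ Set.uIcc a b, (x : ℂ) ≠ (α : ℂ) := by
    intro α hα x hx h
    apply hQ x hx
    have h1 : Q'.eval α = 0 := (mem_roots hQ'0).1 hα
    have h2 : aeval ((α : QB) : ℂ) Q' = 0 := by
      have h3 := aeval_algebraMap_apply ℂ α Q'
      have h4 : aeval α Q' = Q'.eval α := by rw [coe_aeval_eq_eval]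
      rw [h4, h1] at h3
      simpa using h3
    rw [← h, aeval_map_QB, ← aeval_ofReal] at h2
    exact_mod_cast h2
  have key : ∀ x : ℝ, ((rf P Q x : ℝ) : ℂ) =
      fr (C (Q'.leadingCoeff)⁻¹ * P.map (algebraMap ℚ QB)) Q'.roots x := by
    intro x
    unfold rf fr
    push_cast
    rw [aeval_ofReal, aeval_ofReal, map_mul, aeval_C, aeval_map_QB, ← aeval_map_QB Q, ← hQ', hev]
    have h5 : (algebraMap QB ℂ) (Q'.leadingCoeff)⁻¹ = ((Q'.leadingCoeff : QB) : ℂ)⁻¹ := by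
      rw [map_inv₀]; rfl
    rw [h5, div_mul_eq_div_div, div_eq_mul_inv _ ((Q'.leadingCoeff : QB) : ℂ),
      mul_comm (aeval (x : ℂ) P)]
  rw [← intervalIntegral.integral_ofReal]
  simp only [key]
  exact int_fr hab ha hb _ _ _ rfl hα

/-- reduction to lowest terms -/
theorem lowest {a b : ℝ} (hab : a < b) (P Q : ℚ[X]) (hQ0 : Q ≠ 0)
    (hQ : ∀ x ∈ Set.Ioo a b, aeval x Q ≠ 0) (hint : IntegrableOn (rf P Q) (Set.Ioo a b)) :
    ∃ P1 Q1 : ℚ[X], Q1 ≠ 0 ∧ (∀ x ∈ Set.Icc a b, aeval x Q1 ≠ 0) ∧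
      ∀ x ∈ Set.Ioo a b, rf P Q x = rf P1 Q1 x := by
  obtain ⟨P1, hP1⟩ := gcd_dvd_left P Q
  obtain ⟨Q1, hQ1⟩ := gcd_dvd_right P Q
  set g := gcd P Q with hg
  have hg0 : g ≠ 0 := by
    intro h
    rw [h, zero_mul] at hQ1
    exact hQ0 hQ1
  have hQ10 : Q1 ≠ 0 := by
    rintro rfl
    rw [mul_zero] at hQ1
    exact hQ0 hQ1
  have hcop : IsCoprime P1 Q1 := by
    have h1 : IsCoprime P1 Q1 := by
      rw [← gcd_isUnit_iff]
      have h2 : g * gcd P1 Q1 = g * 1 := by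
        have h3 := gcd_mul_left g P1 Q1
        rw [← hP1, ← hQ1, ← hg, hg, normalize_gcd, ← hg] at h3
        rw [mul_one]
        exact h3.symm
      rw [mul_left_cancel₀ hg0 h2]
      exact isUnit_one
    exact h1
  have heq : ∀ x ∈ Set.Ioo a b, rf P Q x = rf P1 Q1 x := by
    intro x hx
    have h1 := hQ x hx
    rw [hQ1, map_mul] at h1
    have h2 : aeval x g ≠ 0 := left_ne_zero_of_mul h1
    unfold rf
    rw [hP1, hQ1, map_mul, map_mul, mul_div_mul_left _ _ h2]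
  have hin : ∀ x ∈ Set.Ioo a b, aeval x Q1 ≠ 0 := by
    intro x hx
    have h1 := hQ x hx
    rw [hQ1, map_mul] at h1
    exact right_ne_zero_of_mul h1
  have hint1 : IntervalIntegrable (rf P1 Q1) volume a b := by
    rw [intervalIntegrable_iff_integrableOn_Ioo_of_le hab.le]
    exact hint.congr_fun heq measurableSet_Ioo
  -- end points
  have hend : ∀ c ∈ Set.uIcc a b, aeval c Q1 ≠ 0 := by
    intro c hc h0
    refine not_intervalIntegrable_of_sub_inv_isBigO_punctured ?_ hab.ne hc hint1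
    have hP1c : aeval c P1 ≠ 0 := by
      intro h
      obtain ⟨u, v, huv⟩ := hcop
      have := congrArg (aeval c) huv
      rw [map_add, map_mul, map_mul, h, h0, mul_zero, mul_zero, add_zero, map_one] at this
      exact zero_ne_one this
    set QR : ℝ[X] := Q1.map (algebraMap ℚ ℝ) with hQR
    have hQRe : ∀ x : ℝ, aeval x Q1 = QR.eval x := by
      intro x; rw [hQR, eval_map_algebraMap]
    have hroot : QR.IsRoot c := by
      rw [IsRoot, ← hQRe]; exact h0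
    obtain ⟨Q2, hQ2⟩ := dvd_iff_isRoot.2 hroot
    have hQR0 : QR ≠ 0 := (Polynomial.map_ne_zero_iff (algebraMap ℚ ℝ).injective).2 hQ10
    have hQ20 : Q2 ≠ 0 := by
      rintro rfl
      rw [mul_zero] at hQ2
      exact hQR0 hQ2
    have e1 : ∀ᶠ x in 𝓝[≠] c, Q2.eval x ≠ 0 := by
      have hfin : {x : ℝ | Q2.eval x = 0}.Finite := by
        have := (Q2.roots.toFinset).finite_toSet
        refine this.subset ?_
        intro x hx
        simp only [Finset.mem_coe, Multiset.mem_toFinset]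
        exact (mem_roots hQ20).2 hx
      have h3 : ∀ᶠ x in 𝓝[≠] c, x ∉ {x : ℝ | Q2.eval x = 0} \ {c} := by
        have h4 : ({x : ℝ | Q2.eval x = 0} \ {c}).Finite := hfin.subset Set.sdiff_subset
        have h5 : ({x : ℝ | Q2.eval x = 0} \ {c})ᶜ ∈ 𝓝 c :=
          h4.isClosed.isOpen_compl.mem_nhds (by simp)
        exact mem_nhdsWithin_of_mem_nhds h5
      filter_upwards [h3, self_mem_nhdsWithin] with x hx hxc h6
      exact hx ⟨h6, hxc⟩
    have hcP : ContinuousAt (fun x : ℝ => aeval x P1) c := P1.continuous_aeval.continuousAt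
    have e2 : ∀ᶠ x in 𝓝[≠] c, aeval x P1 ≠ 0 :=
      mem_nhdsWithin_of_mem_nhds (hcP.eventually_ne hP1c)
    have hbig : (fun x : ℝ => Q2.eval x / aeval x P1) =O[𝓝[≠] c] (fun _ => (1 : ℝ)) := by
      have h7 : ContinuousAt (fun x : ℝ => Q2.eval x / aeval x P1) c :=
        Q2.continuous.continuousAt.div hcP hP1c
      exact (h7.isBigO_one ℝ).mono nhdsWithin_le_nhds
    have h8 : (fun x : ℝ => (x - c)⁻¹) =ᶠ[𝓝[≠] c]
        (fun x => (Q2.eval x / aeval x P1) * rf P1 Q1 x) := by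
      filter_upwards [e1, e2, self_mem_nhdsWithin] with x h9 h10 hxc
      unfold rf
      rw [hQRe, hQ2, eval_mul, eval_sub, eval_X, eval_C]
      have h11 : x - c ≠ 0 := sub_ne_zero.2 hxc
      field_simp
    refine h8.trans_isBigO ?_
    simpa using hbig.mul (Asymptotics.isBigO_refl (rf P1 Q1) (𝓝[≠] c))
  refine ⟨P1, Q1, hQ10, ?_, heq⟩
  intro x hx
  exact hend x (by rwa [Set.uIcc_of_le hab.le])

theorem Ioo_case {a b : ℝ} (hab : a < b) (ha : IsAlgebraic ℚ a) (hb : IsAlgebraic ℚ b)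
    (P Q : ℚ[X]) (hQ0 : Q ≠ 0) (hQ : ∀ x ∈ Set.Ioo a b, aeval x Q ≠ 0)
    (hint : IntegrableOn (rf P Q) (Set.Ioo a b)) :
    ((∫ x in Set.Ioo a b, rf P Q x : ℝ) : ℂ) ∈ Lt := by
  obtain ⟨P1, Q1, hQ10, hne, heq⟩ := lowest hab P Q hQ0 hQ hint
  rw [setIntegral_congr_fun measurableSet_Ioo heq, ← integral_Ioc_eq_integral_Ioo,
    ← intervalIntegral.integral_of_le hab.le]
  apply compact_case hab.le ha hb P1 Q1 hQ10
  rwa [Set.uIcc_of_le hab.le]

theorem natCast_alg (n : ℕ) : IsAlgebraic ℚ (n : ℝ) := by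
  have := isAlgebraic_algebraMap (R := ℚ) (A := ℝ) (n : ℚ)
  simpa using this

/-- `P(1/u) = u ^ (-N) * reflect P (u)` -/
theorem aeval_inv (N : ℕ) (P : ℚ[X]) (hP : P.natDegree ≤ N) {u : ℝ} (hu : u ≠ 0) :
    aeval (u⁻¹) P = aeval u (reflect N P) * (u⁻¹) ^ N := by
  have hui : (u⁻¹ : ℝ) ≠ 0 := inv_ne_zero hu
  let _ : Invertible (u⁻¹ : ℝ) := invertibleOfNonzero hui
  have h := eval₂_reflect_mul_pow (algebraMap ℚ ℝ) (u⁻¹) N P hP
  rw [invOf_eq_inv, inv_inv] at h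
  exact h.symm

theorem Ioi_large {b : ℕ} (hb : 0 < b) (P Q : ℚ[X]) (hQ0 : Q ≠ 0)
    (hQ : ∀ x ∈ Set.Ioi (b : ℝ), aeval x Q ≠ 0) (hint : IntegrableOn (rf P Q) (Set.Ioi (b : ℝ))) :
    ((∫ x in Set.Ioi (b : ℝ), rf P Q x : ℝ) : ℂ) ∈ Lt := by
  have hb0 : (0 : ℝ) < b := by exact_mod_cast hb
  set N := max P.natDegree Q.natDegree with hN
  set P3 := reflect N P with hP3
  set Q3 := X ^ 2 * reflect N Q with hQ3
  have himg : (fun u : ℝ => u⁻¹) '' Set.Ioo 0 (b : ℝ)⁻¹ = Set.Ioi (b : ℝ) := by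
    ext x
    constructor
    · rintro ⟨u, ⟨h1, h2⟩, rfl⟩
      rw [Set.mem_Ioi]
      exact (lt_inv_comm₀ h1 hb0).1 h2
    · intro hx
      rw [Set.mem_Ioi] at hx
      have hx0 : 0 < x := hb0.trans hx
      refine ⟨x⁻¹, ⟨inv_pos.2 hx0, (inv_lt_inv₀ hx0 hb0).2 hx⟩, inv_inv x⟩
  have hder : ∀ u ∈ Set.Ioo 0 (b : ℝ)⁻¹,
      HasDerivWithinAt (fun u : ℝ => u⁻¹) (-(u ^ 2)⁻¹) (Set.Ioo 0 (b : ℝ)⁻¹) u := by
    intro u hu
    exact (hasDerivAt_inv hu.1.ne').hasDerivWithinAt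
  have hinj : Set.InjOn (fun u : ℝ => u⁻¹) (Set.Ioo 0 (b : ℝ)⁻¹) := inv_injective.injOn
  have hfun : ∀ u ∈ Set.Ioo 0 (b : ℝ)⁻¹, |(-(u ^ 2)⁻¹)| • rf P Q (u⁻¹) = rf P3 Q3 u := by
    intro u hu
    have hu0 : u ≠ 0 := hu.1.ne'
    rw [abs_neg, abs_of_nonneg (by positivity), smul_eq_mul]
    unfold rf
    rw [aeval_inv N P (le_max_left _ _) hu0, aeval_inv N Q (le_max_right _ _) hu0, hQ3, map_mul,
      map_pow, aeval_X, mul_div_mul_right _ _ (pow_ne_zero N (inv_ne_zero hu0))]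
    rw [div_mul_eq_div_div, div_eq_mul_inv (aeval u P3) (u ^ 2), mul_comm (aeval u P3),
      mul_div_assoc]
  have hQ30 : Q3 ≠ 0 := by
    refine mul_ne_zero (pow_ne_zero _ X_ne_zero) ?_
    intro h
    exact hQ0 ((reflect_eq_zero_iff).1 h)
  have hQ3n : ∀ x ∈ Set.Ioo 0 (b : ℝ)⁻¹, aeval x Q3 ≠ 0 := by
    intro u hu h
    have hu0 : u ≠ 0 := hu.1.ne'
    rw [hQ3, map_mul, map_pow, aeval_X] at h
    have h2 : aeval u (reflect N Q) = 0 := (mul_eq_zero.1 h).resolve_left (pow_ne_zero 2 hu0)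
    have h3 := aeval_inv N Q (le_max_right _ _) hu0
    rw [h2, zero_mul] at h3
    refine hQ (u⁻¹) ?_ h3
    rw [← himg]
    exact ⟨u, hu, rfl⟩
  have hint3 : IntegrableOn (rf P3 Q3) (Set.Ioo 0 (b : ℝ)⁻¹) := by
    have h1 := (integrableOn_image_iff_integrableOn_abs_deriv_smul measurableSet_Ioo hder hinj
      (rf P Q)).1 (by rw [himg]; exact hint)
    exact h1.congr_fun hfun measurableSet_Ioo
  have hval : (∫ x in Set.Ioi (b : ℝ), rf P Q x) = ∫ x in Set.Ioo 0 (b : ℝ)⁻¹, rf P3 Q3 x := by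
    rw [← himg, integral_image_eq_integral_abs_deriv_smul measurableSet_Ioo hder hinj]
    exact setIntegral_congr_fun measurableSet_Ioo hfun
  rw [hval]
  exact Ioo_case (inv_pos.2 hb0) isAlgebraic_zero (natCast_alg b).inv P3 Q3 hQ30 hQ3n hint3

theorem Ioi_case {a : ℝ} (ha : IsAlgebraic ℚ a) (P Q : ℚ[X]) (hQ0 : Q ≠ 0)
    (hQ : ∀ x ∈ Set.Ioi a, aeval x Q ≠ 0) (hint : IntegrableOn (rf P Q) (Set.Ioi a)) :
    ((∫ x in Set.Ioi a, rf P Q x : ℝ) : ℂ) ∈ Lt := by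
  obtain ⟨b, hb⟩ := exists_nat_gt (max a 0)
  have hab : a < b := (le_max_left _ _).trans_lt hb
  have hb0 : 0 < b := by
    have : (0 : ℝ) < b := (le_max_right _ _).trans_lt hb
    exact_mod_cast this
  have hsplit : Set.Ioi a = Set.Ioc a (b : ℝ) ∪ Set.Ioi (b : ℝ) := (Set.Ioc_union_Ioi_eq_Ioi hab.le).symm
  have h1 : (∫ x in Set.Ioi a, rf P Q x) = (∫ x in Set.Ioo a (b : ℝ), rf P Q x) +
      ∫ x in Set.Ioi (b : ℝ), rf P Q x := by
    rw [hsplit, setIntegral_union (Set.Ioc_disjoint_Ioi le_rfl) measurableSet_Ioi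
      (hint.mono_set (by rw [hsplit]; exact Set.subset_union_left))
      (hint.mono_set (by rw [hsplit]; exact Set.subset_union_right)),
      integral_Ioc_eq_integral_Ioo]
  rw [h1]
  push_cast
  apply Lt.add_mem
  · exact Ioo_case hab ha (natCast_alg b) P Q hQ0 (fun x hx => hQ x hx.1)
      (hint.mono_set (fun x hx => hx.1))
  · exact Ioi_large hb0 P Q hQ0 (fun x hx => hQ x (hab.trans hx))
      (hint.mono_set (fun x hx => hab.trans hx))

theorem Iio_case {b : ℝ} (hb : IsAlgebraic ℚ b) (P Q : ℚ[X]) (hQ0 : Q ≠ 0)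
    (hQ : ∀ x ∈ Set.Iio b, aeval x Q ≠ 0) (hint : IntegrableOn (rf P Q) (Set.Iio b)) :
    ((∫ x in Set.Iio b, rf P Q x : ℝ) : ℂ) ∈ Lt := by
  have himg : (fun u : ℝ => -u) '' Set.Ioi (-b) = Set.Iio b := by
    ext x
    constructor
    · rintro ⟨u, h1, rfl⟩
      rw [Set.mem_Ioi] at h1
      rw [Set.mem_Iio]
      linarith
    · intro hx
      rw [Set.mem_Iio] at hx
      exact ⟨-x, by rw [Set.mem_Ioi]; linarith, neg_neg x⟩
  have hder : ∀ u ∈ Set.Ioi (-b), HasDerivWithinAt (fun u : ℝ => -u) (-1) (Set.Ioi (-b)) u := by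
    intro u _
    exact (hasDerivAt_neg u).hasDerivWithinAt
  have hinj : Set.InjOn (fun u : ℝ => -u) (Set.Ioi (-b)) := neg_injective.injOn
  have hc : ∀ (R : ℚ[X]) (x : ℝ), aeval x (R.comp (-X)) = aeval (-x) R := by
    intro R x
    rw [aeval_comp, map_neg, aeval_X]
  have hfun : ∀ u ∈ Set.Ioi (-b), |(-1 : ℝ)| • rf P Q (-u) = rf (P.comp (-X)) (Q.comp (-X)) u := by
    intro u _
    rw [abs_neg, abs_one, one_smul]
    unfold rf
    rw [hc, hc]
  have hQ30 : Q.comp (-X) ≠ 0 := by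
    intro h
    apply hQ0
    have h1 : (Q.comp (-X)).comp (-X) = Q := by
      rw [comp_assoc, neg_comp, X_comp, neg_neg, comp_X]
    rw [← h1, h, zero_comp]
  have hint3 : IntegrableOn (rf (P.comp (-X)) (Q.comp (-X))) (Set.Ioi (-b)) := by
    have h1 := (integrableOn_image_iff_integrableOn_abs_deriv_smul measurableSet_Ioi hder hinj
      (rf P Q)).1 (by rw [himg]; exact hint)
    exact h1.congr_fun hfun measurableSet_Ioi
  have hval : (∫ x in Set.Iio b, rf P Q x) =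
      ∫ x in Set.Ioi (-b), rf (P.comp (-X)) (Q.comp (-X)) x := by
    rw [← himg, integral_image_eq_integral_abs_deriv_smul measurableSet_Ioi hder hinj]
    exact setIntegral_congr_fun measurableSet_Ioi hfun
  rw [hval]
  refine Ioi_case hb.neg _ _ hQ30 ?_ hint3
  intro x hx
  rw [hc]
  apply hQ
  rw [Set.mem_Ioi] at hx
  rw [Set.mem_Iio]
  linarith

end Pool.Agent.W242.PR
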